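import Pool.Agent.Lib.MP_1a91b9_ntE.C.SelE0

/-!
# MP_1a91b9_nt, converse of the descent: linear algebra

`W`, `z` is a solution of the homogeneous system (`e = 0`: the odd class, `z = 0`; `e = 1`: the even class).
-/

set_option autoImplicit false
set_option linter.unusedSectionVars false
set_option linter.unusedVariables false
set_option linter.unusedSimpArgs false

namespace Pool.Agent.Lib.MP_1a91b9_ntS.C

open NumberField Finset WithZero IsDedekindDomain Pool.Agent.Lib.MP_1a91b9_ntT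
open Pool.Agent.Lib.MP_1a91b9_ntH (F4 wO s3 Pq qd DD dl red half qs sgz qd_rec)
open Pool.Agent.Lib.MP_1a91b9_ntH.C.Sel (io gp io_add tr_mul_eq two_z sum_a sum_b of_mul_a of_mul_b
  add_a add_b sum_rec id_c)
open Pool.Agent.Lib.MP_1a91b9_ntE
open Pool.Agent.Lib.MP_1a91b9_ntE.C

noncomputable section

theorem io_sum (S : Finset Pq) (f : Pq → F4) (i : Fin 3) :
    io (∑ q ∈ S, f q) i = ∑ q ∈ S, io (f q) i := by
  classical
  induction S using Finset.induction_on with
  | empty =>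
    rw [sum_empty, sum_empty]
    revert i
    decide
  | insert a S ha ih => rw [sum_insert ha, sum_insert ha, io_add, ih]

theorem io_of_mul (x : ZMod 2) (y : F4) (i : Fin 3) : io (F4.of x * y) i = x * io y i := by
  revert x y i
  decide

/-- The homogeneous system. -/
structure Row (e : ZMod 2) (c : F4) (S : Finset Pq) (W : Pq → F4) (z : F4) : Prop where
  row : ∀ q ∈ S, ∑ p ∈ S.erase q, F4.of (qd.s q p) * W p +
    (F4.of (∑ p ∈ S.erase q, qd.s q p) + qd.a q + F4.of (F4.tr (c * qd.a q)) +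
      F4.of (e * qE.g q)) * W q + F4.cj (qd.a q) * z = 0
  zero : e = 0 → z = 0
  last : e = 1 → ∑ q ∈ S, F4.of (fq q) * W q = F4.cj c * z

/-- the exponents of `-1` -/
def nF (S : Finset Pq) (W : Pq → F4) (z : F4) : F4 := ∑ q ∈ S, F4.of (qd.a q).a * W q + F4.w * z

/-- the exponents of `√-3` -/
def kF (S : Finset Pq) (W : Pq → F4) (z : F4) : F4 := ∑ q ∈ S, F4.of (qd.a q).b * W q + z

/-- the exponents of `1 + 4 w` -/
def mF (S : Finset Pq) (W : Pq → F4) : F4 := ∑ q ∈ S, F4.of (fq q) * W q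

theorem io_nF (S : Finset Pq) (W : Pq → F4) (z : F4) (i : Fin 3) :
    io (nF S W z) i = ∑ q ∈ S, io (W q) i * (qd.a q).a + io (F4.w * z) i := by
  unfold nF
  rw [io_add, io_sum]
  congr 1
  exact sum_congr rfl fun q _ => by rw [io_of_mul, mul_comm]

theorem io_kF (S : Finset Pq) (W : Pq → F4) (z : F4) (i : Fin 3) :
    io (kF S W z) i = ∑ q ∈ S, io (W q) i * (qd.a q).b + io z i := by
  unfold kF
  rw [io_add, io_sum]
  congr 1
  exact sum_congr rfl fun q _ => by rw [io_of_mul, mul_comm]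

theorem io_mF (S : Finset Pq) (W : Pq → F4) (i : Fin 3) :
    io (mF S W) i = ∑ q ∈ S, io (W q) i * fq q := by
  unfold mF
  rw [io_sum]
  exact sum_congr rfl fun q _ => by rw [io_of_mul, mul_comm]

theorem io_zero : ∀ i : Fin 3, io 0 i = 0 := by decide

theorem io_diag : ∀ (s t g : ZMod 2) (a x : F4) (i : Fin 3),
    io ((F4.of s + a + F4.of t + F4.of g) * x) i =
      io x i * (t + F4.tr (F4.w * a) + s + g) + io (F4.w * F4.w * x) i * F4.tr a := by
  decide

theorem io_col : ∀ (a z : F4) (i : Fin 3), io (F4.cj a * z) i =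
    io (F4.w * z) i * F4.tr a + io z i * F4.tr (F4.w * a) := by
  decide

/-- the equation at `q` -/
theorem eq_q {e : ZMod 2} {c : F4} {S : Finset Pq} {W : Pq → F4} {z : F4} (h : Row e c S W z)
    {q : Pq} (hq : q ∈ S) (i : Fin 3) :
    io (nF S W z) i * F4.tr (qd.a q) + io (kF S W z) i * F4.tr (F4.w * qd.a q) +
      ∑ p ∈ S.erase q, io (W p) i * qd.s p q + io (W q) i *
        (e * qE.g q + ((qd.A S + c).a * F4.tr (qd.a q) +
          ((qd.A S + c).b + 1) * F4.tr (F4.w * qd.a q) + ∑ p ∈ S.erase q, qd.s p q)) +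
      io (F4.w * F4.w * W q) i * F4.tr (qd.a q) = 0 := by
  have hr := congrArg (fun x => io x i) (h.row q hq)
  simp only [io_add, io_sum, io_of_mul, io_diag, io_col, io_zero] at hr
  have f1 : ∑ p ∈ S.erase q, io (W p) i * qd.s p q =
      ∑ p ∈ S.erase q, io (W p) i * qd.s q p +
      ∑ p ∈ S.erase q, io (W p) i * F4.tr (qd.a p * qd.a q) := by
    rw [← sum_add_distrib]
    refine sum_congr rfl fun p hp => ?_
    have h1 := qd_rec p q (ne_of_mem_erase hp)
    linear_combination (io (W p) i) * h1 - io (W p) i * qd.s q p * two_z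
  have f2 : (∑ q ∈ S, io (W q) i * (qd.a q).a) * F4.tr (qd.a q) +
      (∑ q ∈ S, io (W q) i * (qd.a q).b) * F4.tr (F4.w * qd.a q) =
      io (W q) i * F4.tr (qd.a q * qd.a q) +
        ∑ p ∈ S.erase q, io (W p) i * F4.tr (qd.a p * qd.a q) := by
    rw [add_comm (io (W q) i * F4.tr (qd.a q * qd.a q)),
      sum_erase_add _ (fun p => io (W p) i * F4.tr (qd.a p * qd.a q)) hq, sum_mul, sum_mul,
      ← sum_add_distrib]
    exact sum_congr rfl fun p _ => by rw [← tr_mul_eq (qd.a p) (qd.a q)]; ring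
  have f3 : ∑ p ∈ S.erase q, qd.s q p * io (W p) i = ∑ p ∈ S.erase q, io (W p) i * qd.s q p :=
    sum_congr rfl fun p _ => mul_comm _ _
  rw [f3, id_c (qd.A S)] at hr
  rw [io_nF, io_kF, f1, sum_rec S hq]
  obtain ⟨σ, hσ⟩ : ∃ σ : ZMod 2, σ = ∑ p ∈ S.erase q, qd.s q p := ⟨_, rfl⟩
  obtain ⟨Z, hZ⟩ : ∃ Z : ZMod 2, Z = ∑ p ∈ S.erase q, io (W p) i * qd.s q p := ⟨_, rfl⟩
  obtain ⟨Y, hY⟩ : ∃ Y : ZMod 2, Y = ∑ p ∈ S.erase q, io (W p) i * F4.tr (qd.a p * qd.a q) :=
    ⟨_, rfl⟩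
  obtain ⟨S1, hS1⟩ : ∃ Y : ZMod 2, Y = ∑ q ∈ S, io (W q) i * (qd.a q).a := ⟨_, rfl⟩
  obtain ⟨S2, hS2⟩ : ∃ Y : ZMod 2, Y = ∑ q ∈ S, io (W q) i * (qd.a q).b := ⟨_, rfl⟩
  rw [← hσ, ← hZ] at hr
  rw [← hσ, ← hZ, ← hY, ← hS1, ← hS2]
  rw [← hS1, ← hS2, ← hY] at f2
  generalize (qd.A S + c).a = X at hr ⊢
  generalize (qd.A S + c).b = X' at hr ⊢
  generalize F4.tr ((qd.A S + qd.a q) * qd.a q) = T at hr ⊢
  generalize F4.tr (F4.w * qd.a q) = β at hr f2 ⊢
  generalize F4.tr (qd.a q * qd.a q) = γ at hr f2 ⊢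
  generalize F4.tr (qd.a q) = α at hr f2 ⊢
  generalize io (W q) i = w at hr f2 ⊢
  generalize io (F4.w * F4.w * W q) i = w'' at hr ⊢
  generalize io (F4.w * z) i = u at hr ⊢
  generalize io z i = u' at hr ⊢
  generalize qE.g q = g at hr ⊢
  linear_combination hr + f2 + Y * two_z

/-- the sum of the rows: the condition at `√-3` -/
theorem sum_rows {e : ZMod 2} {c : F4} {S : Finset Pq} {W : Pq → F4} {z : F4} (h : Row e c S W z) :
    (1 + F4.of (qd.A S + c).b) * nF S W z +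
      (F4.w * F4.w + F4.of e + F4.of (qd.A S + c).a + F4.of (qd.A S + c).b) * kF S W z = 0 := by
  have h2 : (2 : F4) = 0 := by decide
  have hsum : ∑ q ∈ S, (∑ p ∈ S.erase q, F4.of (qd.s q p) * W p +
    (F4.of (∑ p ∈ S.erase q, qd.s q p) + qd.a q + F4.of (F4.tr (c * qd.a q)) +
      F4.of (e * qE.g q)) * W q + F4.cj (qd.a q) * z) = 0 := sum_eq_zero fun q hq => h.row q hq
  have hswap : ∑ q ∈ S, ∑ p ∈ S.erase q, F4.of (qd.s q p) * W p =
      ∑ q ∈ S, F4.of (∑ p ∈ S.erase q, qd.s p q) * W q := by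
    rw [sum_comm' (t' := S) (s' := fun p => S.erase p) (by
      intro x y
      simp only [mem_erase]
      constructor
      · rintro ⟨h1, h3, h4⟩
        exact ⟨⟨fun h5 => h3 h5.symm, h1⟩, h4⟩
      · rintro ⟨⟨h1, h3⟩, h4⟩
        exact ⟨h3, fun h5 => h1 h5.symm, h4⟩)]
    refine sum_congr rfl fun q _ => ?_
    rw [Pool.Agent.Lib.MP_1a91b9_ntH.C.Sel.of_sum, sum_mul]
  rw [sum_add_distrib, sum_add_distrib, hswap, ← sum_mul, ← F4.cj_sum, ← sum_add_distrib] at hsum
  have hA : ∑ i ∈ S, qd.a i = qd.A S := rfl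
  rw [hA] at hsum
  have hterm : ∀ q ∈ S, F4.of (∑ p ∈ S.erase q, qd.s p q) * W q +
      (F4.of (∑ p ∈ S.erase q, qd.s q p) + qd.a q + F4.of (F4.tr (c * qd.a q)) +
      F4.of (e * qE.g q)) * W q =
      (1 + F4.of (qd.A S + c).b) * (F4.of (qd.a q).a * W q) +
      (F4.w * F4.w + F4.of e + F4.of (qd.A S + c).a + F4.of (qd.A S + c).b) *
        (F4.of (qd.a q).b * W q) + F4.of e * (F4.of (fq q) * W q) := by
    intro q hq
    rw [sum_rec S hq]
    have hf : qE.g q = fq q + (qd.a q).b := by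
      have h3 : F4.tr (qd.a q) = (qd.a q).b := rfl
      unfold fq
      rw [h3]
      linear_combination -((qd.a q).b) * two_z
    rw [hf]
    generalize ∑ p ∈ S.erase q, qd.s q p = σ
    generalize fq q = f
    have key : ∀ (σ e f : ZMod 2) (A a c : F4), F4.of (σ + F4.tr ((A + a) * a)) +
        (F4.of σ + a + F4.of (F4.tr (c * a)) + F4.of (e * (f + a.b))) =
        (1 + F4.of (A + c).b) * F4.of a.a + (F4.w * F4.w + F4.of e + F4.of (A + c).a +
          F4.of (A + c).b) * F4.of a.b + F4.of e * F4.of f := by decide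
    have h4 := key σ e f (qd.A S) (qd.a q) c
    linear_combination W q * h4
  rw [sum_congr rfl hterm, sum_add_distrib, sum_add_distrib, ← mul_sum, ← mul_sum, ← mul_sum] at hsum
  unfold nF kF
  have he : ∀ x : ZMod 2, x = 0 ∨ x = 1 := by decide
  rcases he e with h0 | h1
  · have hz := h.zero h0
    subst h0
    rw [hz] at hsum ⊢
    have o0 : F4.of 0 = 0 := rfl
    rw [o0] at hsum ⊢
    linear_combination hsum
  · have hl := h.last h1
    subst h1
    have o1 : F4.of 1 = 1 := rfl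
    rw [hl, o1, one_mul] at hsum
    rw [o1]
    have key : ∀ A c : F4, (1 + F4.of (A + c).b) * F4.w + (F4.w * F4.w + 1 + F4.of (A + c).a +
        F4.of (A + c).b) = F4.cj c + F4.cj A := by decide
    have h5 := key (qd.A S) c
    linear_combination hsum + z * h5

/-- the class modulo `4` at `2` -/
theorem cls_two (S : Finset Pq) (W : Pq → F4) (z : F4) (i : Fin 3) :
    F4.of (io (nF S W z) i) * 1 + F4.of (io (kF S W z) i) * F4.w +
      ∑ q ∈ S, F4.of (io (W q) i) * qd.a q =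
    F4.of (io (F4.w * z) i) * 1 + F4.of (io z i) * F4.w := by
  rw [io_nF, io_kF, F4.of_add, F4.of_add, Pool.Agent.Lib.MP_1a91b9_ntH.C.Sel.of_sum,
    Pool.Agent.Lib.MP_1a91b9_ntH.C.Sel.of_sum]
  have h1 : ∀ q, F4.of (io (W q) i) * qd.a q = F4.of (io (W q) i * (qd.a q).a) +
      F4.of (io (W q) i * (qd.a q).b) * F4.w := by
    intro q
    generalize io (W q) i = x
    generalize qd.a q = y
    revert x y
    decide
  rw [sum_congr rfl fun q _ => h1 q, sum_add_distrib, ← sum_mul]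
  have h2 : (2 : F4) = 0 := by decide
  linear_combination ((∑ q ∈ S, F4.of (io (W q) i * (qd.a q).a)) +
    (∑ q ∈ S, F4.of (io (W q) i * (qd.a q).b)) * F4.w) * h2

end

end Pool.Agent.Lib.MP_1a91b9_ntS.C
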