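import Pool.Agent.Lib.MP_1a91b9_ntS.C.Al

/-!
# MP_1a91b9_nt, converse of the descent: the places of `S` and the place of `√-3`
-/

set_option autoImplicit false
set_option linter.unusedSectionVars false
set_option linter.unusedVariables false
set_option linter.unusedSimpArgs false

namespace Pool.Agent.Lib.MP_1a91b9_ntS.C

open NumberField Finset WithZero IsDedekindDomain Pool.Agent.Lib.MP_1a91b9_ntT
open Pool.Agent.Lib.MP_1a91b9_ntH (F4 wO s3 Pq qd DD dl red half qs sgz qs_mul qs_neg_one qs_s3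
  not_dvd_s3 sgz_add sgz_inj om_quad s3_sq)
open Pool.Agent.Lib.MP_1a91b9_ntH.C (GLoc ee Sq prod_split sq_iff_qs four_val two_notMem_s3 val_lt
  val_one)
open Pool.Agent.Lib.MP_1a91b9_ntH.C.Sel (pv prime_two io Cl val_two pv_lt pv_one pv_self gp stc dlc_gp
  two_mem prime_s3 pow_three_sq gp_erase not_dvd_gp_erase not_dvd_of_unit val_four exp_pow exp_odd
  even_val sq_qs qs_pow qs_gp sgz_pow pv_eq decomp exists_par exists_pow)
open Pool.Agent.Lib.MP_1a91b9_ntH2 (dlc tw)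
open Pool.Agent.Lib.MP_1a91b9_ntH2.C (dlc_ne_zero)
open Pool.Agent.Lib.MP_1a91b9_ntE
open Pool.Agent.Lib.MP_1a91b9_ntE.C

noncomputable section

/-- the twisting element, odd (`e = 0`) or even (`e = 1`) -/
def dG (e : ZMod 2) (c : F4) (S : Finset Pq) : 𝓞 K := 2 ^ e.val * dlc c S

theorem dG_zero (c : F4) (S : Finset Pq) : dG 0 c S = dlc c S := by
  unfold dG
  rw [ZMod.val_zero, pow_zero, one_mul]

theorem dG_one (c : F4) (S : Finset Pq) : dG 1 c S = dle c S := by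
  unfold dG dle
  have h1 : ((1 : ZMod 2)).val = 1 := rfl
  rw [h1, pow_one]

theorem dG_ne (e : ZMod 2) (c : F4) (S : Finset Pq) : dG e c S ≠ 0 :=
  mul_ne_zero (pow_ne_zero _ two_ne_zero) (dlc_ne_zero c S)

theorem Sq.mul_sq {ν : Valuation K ℤᵐ⁰} {u s : K} (h4 : ν 4 ≤ 1) (hs : s ≠ 0) (h : Sq ν u) :
    Sq ν (u * s ^ 2) :=
  h.mul h4 (Sq.of_isSquare ⟨s, by ring⟩ (pow_ne_zero 2 hs))

/-- a triple which is the class of a point of order two -/
theorem gloc_of_stg {D : 𝓞 K} (v : HeightOneSpectrum (𝓞 K)) (h4 : v.valuation K 4 ≤ 1)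
    (a : Fin 3 → K) (c : F4) (h : ∀ i, Sq (v.valuation K) (a i * ((stg D c i : 𝓞 K) : K))) :
    GLoc (v.valuation K) om (D : K) a := by
  by_cases hc : c = 0
  · left
    intro i
    have h1 := h i
    rw [hc, stgO_zero] at h1
    have e : ((1 : 𝓞 K) : K) = 1 := rfl
    rw [e, mul_one] at h1
    exact h1
  · right; left
    obtain ⟨j, rfl⟩ := exists_pow c hc
    refine ⟨j, fun i hij => ?_⟩
    obtain ⟨r, hr, he⟩ := ee_stg D j i hij
    rw [he, ← mul_assoc]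
    exact Sq.mul_sq h4 hr (h i)

/-- the place `q` -/
theorem at_q (e : ZMod 2) (d : F4) {S : Finset Pq} {q : Pq} (hq : q ∈ S) (n k : ZMod 2)
    (V : Pq → ZMod 2) (c : F4) (i : Fin 3) (hV : V q = io c i)
    (h : n * F4.tr (qd.a q) + k * F4.tr (F4.w * qd.a q) +
      ∑ p ∈ S.erase q, V p * qd.s p q + io c i * (e * qE.g q + ((qd.A S + d).a * F4.tr (qd.a q) +
        ((qd.A S + d).b + 1) * F4.tr (F4.w * qd.a q) + ∑ p ∈ S.erase q, qd.s p q)) +
      io (F4.w * F4.w * c) i * F4.tr (qd.a q) = 0) :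
    Sq ((pv q.1 q.prime).valuation K) ((gp S n k V * stg (dG e d S) c i : 𝓞 K) : K) := by
  have h4 : (pv q.1 q.prime).valuation K (4 : K) ≤ 1 := (val_four q).le
  obtain ⟨t, ht⟩ : ∃ t : 𝓞 K, t = gp (S.erase q) n k V *
      (2 ^ e.val * gp (S.erase q) (qd.A S + d).a (qd.A S + d).b (fun _ => 1) * s3) ^ (io c i).val *
        (-1) ^ (io (F4.w * F4.w * c) i).val := ⟨_, rfl⟩
  have hnt : ¬ q.1 ∣ t := by
    rw [ht]
    intro hd
    rcases q.prime.dvd_or_dvd hd with h1 | h1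
    · rcases q.prime.dvd_or_dvd h1 with h2 | h2
      · exact not_dvd_gp_erase _ _ _ h2
      · rcases q.prime.dvd_or_dvd (q.prime.dvd_of_dvd_pow h2) with h3 | h3
        · rcases q.prime.dvd_or_dvd h3 with h5 | h5
          · exact not_dvd_two q (q.prime.dvd_of_dvd_pow h5)
          · exact not_dvd_gp_erase _ _ _ h5
        · exact not_dvd_s3 q h3
    · exact not_dvd_of_unit q.prime ((isUnit_one.neg).pow _) h1
  have h1 : ((1 : ZMod 2)).val = 1 := rfl
  have hfac : gp S n k V * stg (dG e d S) c i = t * (q.1 ^ (V q).val) ^ 2 := by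
    rw [ht, gp_erase hq, stg, dG, dlc_gp, gp_erase hq (qd.A S + d).a, h1, pow_one, ← hV]
    ring
  have hqv : q.1 ∈ (pv q.1 q.prime).asIdeal := Ideal.mem_span_singleton_self _
  have hnq : q ∉ S.erase q := notMem_erase q S
  have hqs : qs q t = 1 := by
    have h7 : sgz 0 = 1 := rfl
    rw [ht, qs_mul, qs_mul, qs_pow, qs_mul, qs_mul, qs_gp hnq, qs_gp hnq, qs_s3,
      qs_pow, qs_pow, qs_neg_one, qs_two', sgz_pow, sgz_pow, ← sgz_add, ← sgz_add, sgz_pow,
      ← sgz_add, ← sgz_add, ← h7, ← h]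
    congr 1
    simp only [one_mul]
    ring
  have hsq : Sq ((pv q.1 q.prime).valuation K) (t : K) := (sq_iff_qs hqv hnt).2 hqs
  have hqK : (q.1 : K) ≠ 0 := fun h0 => q.prime.ne_zero (RingOfIntegers.ext h0)
  have e1 : ((gp S n k V * stg (dG e d S) c i : 𝓞 K) : K) = (t : K) * ((q.1 : K) ^ (V q).val) ^ 2 := by
    rw [hfac]
    push_cast
    rfl
  rw [e1]
  exact Sq.mul_sq h4 (pow_ne_zero _ hqK) hsq

/-! ### the place of `√-3` -/

/-- `x = (-1) ^ ε` modulo `√-3` -/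
def C3 (x : 𝓞 K) (ε : ZMod 2) : Prop := s3 ∣ x - (-1) ^ ε.val

theorem neg_one_add (a b : ZMod 2) : ((-1 : 𝓞 K) ^ (a + b).val) = (-1) ^ a.val * (-1) ^ b.val := by
  have h0 : ∀ x : ZMod 2, x = 0 ∨ x = 1 := by decide
  have h1 : ((1 : ZMod 2)).val = 1 := rfl
  have h2 : ((1 + 1 : ZMod 2)).val = 0 := rfl
  rcases h0 a with rfl | rfl <;> rcases h0 b with rfl | rfl
  · rw [add_zero, ZMod.val_zero, pow_zero, one_mul]
  · rw [zero_add, ZMod.val_zero, pow_zero, one_mul]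
  · rw [add_zero, ZMod.val_zero, pow_zero, mul_one]
  · rw [h2, h1, pow_zero, pow_one]
    ring

theorem C3.mul {x y : 𝓞 K} {a b : ZMod 2} (h : C3 x a) (h' : C3 y b) : C3 (x * y) (a + b) := by
  obtain ⟨s, hs⟩ := h
  obtain ⟨t, ht⟩ := h'
  refine ⟨s * y + (-1) ^ a.val * t, ?_⟩
  rw [neg_one_add]
  linear_combination y * hs + (-1) ^ a.val * ht

theorem C3.one : C3 1 0 := ⟨0, by rw [ZMod.val_zero, pow_zero, sub_self, mul_zero]⟩

theorem C3.neg_one : C3 (-1) 1 := by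
  have h1 : ((1 : ZMod 2)).val = 1 := rfl
  exact ⟨0, by rw [h1, pow_one, sub_self, mul_zero]⟩

theorem C3.two : C3 2 1 := by
  have h1 : ((1 : ZMod 2)).val = 1 := rfl
  exact ⟨-s3, by rw [h1, pow_one]; linear_combination s3_sq⟩

theorem C3.prime (q : Pq) : C3 q.1 0 := by
  have h := q.s3_dvd
  unfold C3
  rw [ZMod.val_zero, pow_zero]
  exact h

theorem C3.pow {x : 𝓞 K} {a : ZMod 2} (h : C3 x a) (e : ZMod 2) : C3 (x ^ e.val) (e * a) := by
  have h0 : ∀ x : ZMod 2, x = 0 ∨ x = 1 := by decide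
  have h1 : ((1 : ZMod 2)).val = 1 := rfl
  rcases h0 e with rfl | rfl
  · rw [ZMod.val_zero, pow_zero, zero_mul]
    exact C3.one
  · rw [h1, pow_one, one_mul]
    exact h

theorem C3.prod {S : Finset Pq} {f : Pq → 𝓞 K} (h : ∀ q ∈ S, C3 (f q) 0) : C3 (∏ q ∈ S, f q) 0 := by
  classical
  induction S using Finset.induction_on with
  | empty => exact C3.one
  | insert a S ha ih =>
    rw [prod_insert ha]
    have h1 := (h a (mem_insert_self a S)).mul (ih fun q hq => h q (mem_insert_of_mem hq))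
    rwa [add_zero] at h1

theorem C3.gp (S : Finset Pq) (n : ZMod 2) (V : Pq → ZMod 2) : C3 (gp S n 0 V) n := by
  have h := ((C3.neg_one.pow n).mul C3.one).mul
    (C3.prod (S := S) (f := fun q => q.1 ^ (V q).val) fun q _ => by
      have := (C3.prime q).pow (V q)
      rwa [mul_zero] at this)
  have e : n * 1 + 0 + 0 = n := by ring
  rw [e] at h
  unfold Pool.Agent.Lib.MP_1a91b9_ntH.C.Sel.gp
  rw [ZMod.val_zero, pow_zero]
  exact h

theorem C3.sq {v : HeightOneSpectrum (𝓞 K)} (h : s3 ∈ v.asIdeal) {x : 𝓞 K} (hx : C3 x 0) :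
    Sq (v.valuation K) (x : K) := by
  refine Sq.one ?_
  have e : (x : K) - 1 = ((x - 1 : 𝓞 K) : K) := by
    push_cast
    rfl
  rw [e, four_val (two_notMem_s3 h), val_lt]
  unfold C3 at hx
  rw [ZMod.val_zero, pow_zero] at hx
  exact v.asIdeal.mem_of_dvd hx h

theorem ex_t : ∀ (e : ZMod 2) (A n k : F4), (1 + F4.of A.b) * n +
    (F4.w * F4.w + F4.of e + F4.of A.a + F4.of A.b) * k = 0 →
    ∃ t : F4, ∀ i : Fin 3, ((A.b = 0 ∧ io k i = io t i) ∨ (A.b = 1 ∧ io k i = 0)) ∧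
      io n i + (e + A.a) * io t i + io (F4.w * F4.w * t) i = 0 := by
  decide

/-- the place of `√-3` -/
theorem at_s3 {v : HeightOneSpectrum (𝓞 K)} (h : s3 ∈ v.asIdeal) (e : ZMod 2) (d : F4)
    (S : Finset Pq) (n k : ZMod 2) (V : Pq → ZMod 2) (t : F4) (i : Fin 3)
    (hk : ((qd.A S + d).b = 0 ∧ k = io t i) ∨ ((qd.A S + d).b = 1 ∧ k = 0))
    (hn : n + (e + (qd.A S + d).a) * io t i + io (F4.w * F4.w * t) i = 0) :
    Sq (v.valuation K) ((gp S n k V * stg (dG e d S) t i : 𝓞 K) : K) := by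
  have h4 : v.valuation K (4 : K) ≤ 1 := (four_val (two_notMem_s3 h)).le
  have hs3 : (s3 : K) ≠ 0 := fun h0 => prime_s3.ne_zero (RingOfIntegers.ext h0)
  have h1 : ((1 : ZMod 2)).val = 1 := rfl
  obtain ⟨y, hy⟩ : ∃ y : 𝓞 K, y = gp S n 0 V *
      (2 ^ e.val * gp S (qd.A S + d).a 0 (fun _ => 1)) ^ (io t i).val *
        (-1) ^ (io (F4.w * F4.w * t) i).val := ⟨_, rfl⟩
  have hy3 : C3 y 0 := by
    rw [hy]
    have h5 := ((C3.gp S n V).mul (((C3.two.pow e).mul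
      (C3.gp S (qd.A S + d).a (fun _ => 1))).pow (io t i))).mul
      (C3.neg_one.pow (io (F4.w * F4.w * t) i))
    have e1 : n + io t i * (e * 1 + (qd.A S + d).a) + io (F4.w * F4.w * t) i * 1 = 0 := by
      rw [← hn]
      ring
    rw [e1] at h5
    exact h5
  have hsq := C3.sq h hy3
  obtain ⟨m, hm⟩ : ∃ m : ℕ, gp S n k V * stg (dG e d S) t i = y * (s3 ^ m) ^ 2 := by
    rcases hk with ⟨hb, hk⟩ | ⟨hb, hk⟩
    · refine ⟨k.val, ?_⟩
      rw [hy, Pool.Agent.Lib.MP_1a91b9_ntH.C.Sel.gp_s3, stg, dG, dlc_gp, hb, ← hk]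
      ring
    · refine ⟨(io t i).val, ?_⟩
      rw [hy, hk, stg, dG, dlc_gp, hb, Pool.Agent.Lib.MP_1a91b9_ntH.C.Sel.gp_s3 S (qd.A S + d).a 1, h1]
      ring
  have e1 : ((gp S n k V * stg (dG e d S) t i : 𝓞 K) : K) = (y : K) * ((s3 : K) ^ m) ^ 2 := by
    rw [hm]
    push_cast
    rfl
  rw [e1]
  exact Sq.mul_sq h4 (pow_ne_zero _ hs3) hsq

end

end Pool.Agent.Lib.MP_1a91b9_ntS.C
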