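import Pool.Agent.Lib.MP_1a91b9_ntS.C.Two2
import Pool.Agent.Lib.MP_1a91b9_ntS.C.LocS
import Pool.Agent.Lib.MP_1a91b9_ntE.C.MainE
import Pool.Agent.Lib.MP_1a91b9_ntH2.C.MainC

/-!
# MP_1a91b9_nt, converse of the descent: the triple of a solution of the homogeneous system
-/

set_option autoImplicit false
set_option linter.unusedSectionVars false
set_option linter.unusedVariables false
set_option linter.unusedSimpArgs false

namespace Pool.Agent.Lib.MP_1a91b9_ntS.C

open NumberField Finset WithZero IsDedekindDomain Pool.Agent.Lib.MP_1a91b9_ntT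
open Pool.Agent.Lib.MP_1a91b9_ntH (F4 wO s3 Pq qd DD dl red half qs sgz qs_mul qs_neg_one qs_s3
  not_dvd_s3 sgz_add sgz_inj om_quad s3_sq)
open Pool.Agent.Lib.MP_1a91b9_ntH.C (GLoc ee Sq nu_four_le val_one)
open Pool.Agent.Lib.MP_1a91b9_ntH.C.Sel (pv prime_two io Cl val_two pv_lt pv_one pv_self gp stc dlc_gp
  two_mem prime_s3 pow_three_sq gp_erase gp_ne gp_s3 not_dvd_gp not_dvd_gp_erase not_dvd_gp_s3
  not_dvd_of_unit val_four exp_pow exp_odd even_val pv_eq exists_pow exists_pv)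
open Pool.Agent.Lib.MP_1a91b9_ntH2 (dlc tw)
open Pool.Agent.Lib.MP_1a91b9_ntH2.C (dlc_ne_zero)
open Pool.Agent.Lib.MP_1a91b9_ntE
open Pool.Agent.Lib.MP_1a91b9_ntE.C

noncomputable section

/-- the good places -/
def GoodV : Prop := ∀ (v : HeightOneSpectrum (𝓞 K)) (D : 𝓞 K) (x : Fin 3 → 𝓞 K),
  v.valuation K 2 = 1 → v.valuation K 3 = 1 → v.valuation K (D : K) = 1 →
  (∀ i, v.valuation K (x i : K) = 1) → IsSquare ((x 0 : K) * (x 1 : K) * (x 2 : K)) →
  GLoc (v.valuation K) om (D : K) (fun i => (x i : K))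

/-- the triple -/
def tri (S : Finset Pq) (W : Pq → F4) (z : F4) (i : Fin 3) : 𝓞 K :=
  gp S (io (nF S W z) i) (io (kF S W z) i) (fun q => io (W q) i)

theorem tri_ne (S : Finset Pq) (W : Pq → F4) (z : F4) (i : Fin 3) : tri S W z i ≠ 0 := gp_ne _ _ _ _

theorem io_two (c : F4) : io c 2 = io c 1 + io c 0 := rfl

theorem sq_three {M : Type*} [CommMonoid M] (x : M) (c : F4) :
    IsSquare (x ^ (io c 0).val * x ^ (io c 1).val * x ^ (io c 2).val) := pow_three_sq x c.a c.b

theorem prod_sq {M : Type*} [CommMonoid M] (S : Finset Pq) (f : Pq → M)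
    (h : ∀ q ∈ S, IsSquare (f q)) : IsSquare (∏ q ∈ S, f q) := by
  classical
  induction S using Finset.induction_on with
  | empty => exact ⟨1, by rw [prod_empty, one_mul]⟩
  | insert a S ha ih =>
    rw [prod_insert ha]
    exact (h a (mem_insert_self a S)).mul (ih fun q hq => h q (mem_insert_of_mem hq))

theorem tri_prod (S : Finset Pq) (W : Pq → F4) (z : F4) :
    IsSquare (tri S W z 0 * tri S W z 1 * tri S W z 2) := by
  have e : tri S W z 0 * tri S W z 1 * tri S W z 2 =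
      ((-1) ^ (io (nF S W z) 0).val * (-1) ^ (io (nF S W z) 1).val * (-1) ^ (io (nF S W z) 2).val) *
      (s3 ^ (io (kF S W z) 0).val * s3 ^ (io (kF S W z) 1).val * s3 ^ (io (kF S W z) 2).val) *
      ∏ q ∈ S, (q.1 ^ (io (W q) 0).val * q.1 ^ (io (W q) 1).val * q.1 ^ (io (W q) 2).val) := by
    unfold tri gp
    rw [prod_mul_distrib, prod_mul_distrib]
    ring
  rw [e]
  exact ((sq_three _ _).mul (sq_three _ _)).mul (prod_sq S _ fun q _ => sq_three _ _)

theorem triK_prod (S : Finset Pq) (W : Pq → F4) (z : F4) :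
    IsSquare ((tri S W z 0 : K) * (tri S W z 1 : K) * (tri S W z 2 : K)) := by
  obtain ⟨r, hr⟩ := tri_prod S W z
  refine ⟨(r : K), ?_⟩
  have := congrArg (fun x : 𝓞 K => (x : K)) hr
  push_cast at this
  exact this

/-- the class of the triple at `2` -/
theorem cf_tri {e : ZMod 2} {c : F4} {S : Finset Pq} {W : Pq → F4} {z : F4} (h : Row e c S W z)
    (i : Fin 3) : Cf (tri S W z i) (F4.of (io (F4.w * z) i) * 1 + F4.of (io z i) * F4.w)
      (io (mF S W) i) := by
  have h1 := Cf.gp S (io (nF S W z) i) (io (kF S W z) i) (fun q => io (W q) i)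
  rw [cls_two, ← io_mF] at h1
  exact h1

theorem not_dvd_three {π : 𝓞 K} (h : Prime π) (h3 : ¬ π ∣ s3) : ¬ π ∣ 3 := by
  intro hd
  apply h3
  have e : (3 : 𝓞 K) = -(s3 ^ 2) := by linear_combination s3_sq
  rw [e, dvd_neg] at hd
  exact h.dvd_of_dvd_pow hd

/-- **the local conditions** -/
theorem tri_loc (hG : GoodV) {e : ZMod 2} {c : F4} {S : Finset Pq} {W : Pq → F4} {z : F4}
    (h : Row e c S W z) (v : HeightOneSpectrum (𝓞 K)) :
    GLoc (v.valuation K) om ((dG e c S : 𝓞 K) : K) (fun i => (tri S W z i : K)) := by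
  obtain ⟨π, hπ, rfl⟩ := exists_pv v
  by_cases h2 : π ∣ 2
  · rw [pv_eq hπ prime_two h2]
    have he : ∀ x : ZMod 2, x = 0 ∨ x = 1 := by decide
    have hd : Cl (dlc c S) c := Pool.Agent.Lib.MP_1a91b9_ntH2.C.Cr.dlc c S
    rcases he e with h0 | h1
    · have hz := h.zero h0
      subst h0
      rw [dG_zero]
      refine gloc_two_odd (dlc c S) ?_ _ (mF S W) fun i => ?_
      · obtain ⟨y, hy, -⟩ := hd
        have h2 : (2 : F4) = 0 := by decide
        rw [hy, map_add, map_mul, map_one, map_ofNat, h2, zero_mul, add_zero]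
      · have h3 := cf_tri h i
        have h4 : F4.of (io (F4.w * z) i) * 1 + F4.of (io z i) * F4.w = 0 := by
          rw [hz]
          clear h3
          revert i
          decide
        rw [h4] at h3
        exact h3
    · have hl := h.last h1
      subst h1
      rw [dG_one]
      refine gloc_two_even hd _ z fun i => ?_
      have h3 := cf_tri h i
      have h4 : mF S W = F4.cj c * z := hl
      rw [h4] at h3
      exact h3
  by_cases h3 : π ∣ s3
  · have hs : s3 ∈ (pv π hπ).asIdeal := Ideal.mem_span_singleton.2 h3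
    obtain ⟨t, ht⟩ := ex_t e (qd.A S + c) _ _ (sum_rows h)
    refine gloc_of_stg _ (Pool.Agent.Lib.MP_1a91b9_ntH.C.four_val
      (Pool.Agent.Lib.MP_1a91b9_ntH.C.two_notMem_s3 hs)).le _ t fun i => ?_
    have h5 := at_s3 hs e c S (io (nF S W z) i) (io (kF S W z) i) (fun q => io (W q) i) t i
      (ht i).1 (ht i).2
    have e1 : ((gp S (io (nF S W z) i) (io (kF S W z) i) (fun q => io (W q) i) *
        stg (dG e c S) t i : 𝓞 K) : K) = (tri S W z i : K) * ((stg (dG e c S) t i : 𝓞 K) : K) := by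
      unfold tri
      push_cast
      rfl
    rw [e1] at h5
    exact h5
  by_cases hq : ∃ q ∈ S, π ∣ q.1
  · obtain ⟨q, hqS, hd⟩ := hq
    rw [pv_eq hπ q.prime hd]
    refine gloc_of_stg _ (val_four q).le _ (W q) fun i => ?_
    have h5 := at_q e c hqS (io (nF S W z) i) (io (kF S W z) i) (fun q => io (W q) i) (W q) i rfl
      (eq_q h hqS i)
    have e1 : ((gp S (io (nF S W z) i) (io (kF S W z) i) (fun q => io (W q) i) *
        stg (dG e c S) (W q) i : 𝓞 K) : K) =
        (tri S W z i : K) * ((stg (dG e c S) (W q) i : 𝓞 K) : K) := by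
      unfold tri
      push_cast
      rfl
    rw [e1] at h5
    exact h5
  · push Not at hq
    have e2 : ((2 : 𝓞 K) : K) = 2 := map_ofNat (algebraMap (𝓞 K) K) 2
    have e3 : ((3 : 𝓞 K) : K) = 3 := map_ofNat (algebraMap (𝓞 K) K) 3
    refine hG _ _ _ ?_ ?_ ?_ (fun i => pv_one hπ (not_dvd_gp hπ h3 hq _ _ _)) (triK_prod S W z)
    · rw [← e2]
      exact pv_one hπ h2
    · rw [← e3]
      exact pv_one hπ (not_dvd_three hπ h3)
    · refine pv_one hπ ?_
      intro hd
      rcases hπ.dvd_or_dvd hd with h5 | h5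
      · exact h2 (hπ.dvd_of_dvd_pow h5)
      · rw [dlc_gp] at h5
        exact not_dvd_gp hπ h3 hq _ _ _ h5

/-! ### the triple is not trivial -/

theorem val_even_of_sq {v : HeightOneSpectrum (𝓞 K)} {x : K} (h : IsSquare x) :
    IsSquare (v.valuation K x) := by
  obtain ⟨r, rfl⟩ := h
  exact ⟨v.valuation K r, map_mul _ _ _⟩

theorem tri_not_sq {S : Finset Pq} {W : Pq → F4} {z : F4}
    (hne : ¬ ((∀ q ∈ S, W q = 0) ∧ z = 0)) : ¬ ∀ i, IsSquare (tri S W z i : K) := by
  intro h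
  apply hne
  have hio : ∀ x : F4, (∀ i : Fin 3, io x i = 0) → x = 0 := by decide
  have he : ∀ x : ZMod 2, Even x.val → x = 0 := by decide
  have hW : ∀ q ∈ S, W q = 0 := by
    intro q hq
    refine hio _ fun i => he _ ?_
    have h1 := val_even_of_sq (v := pv q.1 q.prime) (h i)
    unfold tri at h1
    rw [gp_erase hq] at h1
    push_cast at h1
    rw [map_mul, map_pow, pv_self, pv_one q.prime (not_dvd_gp_erase _ _ _), mul_one, exp_pow] at h1
    have h2 := exp_odd h1
    rwa [even_neg, Int.even_coe_nat] at h2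
  refine ⟨hW, hio _ fun i => he _ ?_⟩
  have h1 := val_even_of_sq (v := pv s3 prime_s3) (h i)
  unfold tri at h1
  rw [gp_s3] at h1
  push_cast at h1
  rw [map_mul, map_pow, pv_self, pv_one prime_s3 (not_dvd_gp_s3 _ _), mul_one, exp_pow] at h1
  have h2 := exp_odd h1
  rw [even_neg, Int.even_coe_nat] at h2
  have h3 : io (kF S W z) i = io z i := by
    rw [io_kF]
    have h4 : ∑ q ∈ S, io (W q) i * (qd.a q).b = 0 :=
      sum_eq_zero fun q hq => by rw [hW q hq, io_zero, zero_mul]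
    rw [h4, zero_add]
  rwa [h3] at h2

theorem io_pow_ne : ∀ j i : Fin 3, i ≠ j → io (F4.w ^ (j : ℕ)) i = 1 := by decide

theorem cls_contra : ∀ (c : F4) (j : Fin 3), ¬ ∀ i : Fin 3, i ≠ j →
    (0 : F4) + (F4.of (io (F4.w ^ (j : ℕ)) i) * (c + F4.w) +
      F4.of (io (F4.w * F4.w * F4.w ^ (j : ℕ)) i) * 1) = 0 := by decide

theorem exists_ne_fin (j : Fin 3) : ∃ i : Fin 3, i ≠ j := by
  revert j
  decide

theorem tri_not_tors {e : ZMod 2} {c : F4} {S : Finset Pq} {W : Pq → F4} {z : F4}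
    (h : Row e c S W z) (j : Fin 3) : ¬ ∀ i, i ≠ j → IsSquare ((tri S W z i : K) *
      (ee om ((dG e c S : 𝓞 K) : K) j - ee om ((dG e c S : 𝓞 K) : K) i)) := by
  intro hsq
  have hst : ∀ i, i ≠ j →
      IsSquare ((tri S W z i * stg (dG e c S) (F4.w ^ (j : ℕ)) i : 𝓞 K) : K) := by
    intro i hij
    obtain ⟨r, hr, he⟩ := ee_stg (dG e c S) j i hij
    obtain ⟨s, hs⟩ := hsq i hij
    rw [he] at hs
    refine ⟨s / r, ?_⟩
    have e1 : ((tri S W z i * stg (dG e c S) (F4.w ^ (j : ℕ)) i : 𝓞 K) : K) =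
        (tri S W z i : K) * ((stg (dG e c S) (F4.w ^ (j : ℕ)) i : 𝓞 K) : K) := by
      push_cast
      rfl
    rw [e1]
    field_simp
    linear_combination hs
  have he : ∀ x : ZMod 2, x = 0 ∨ x = 1 := by decide
  rcases he e with h0 | h1
  · have hz := h.zero h0
    subst h0
    rw [dG_zero] at hst
    refine cls_contra c j fun i hij => ?_
    have h3 := cf_tri h i
    have h4 : F4.of (io (F4.w * z) i) * 1 + F4.of (io z i) * F4.w = 0 := by
      rw [hz]
      clear hij h3
      revert i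
      decide
    rw [h4] at h3
    have h5 := h3.mul (Cf.stc c S (F4.w ^ (j : ℕ)) i)
    have hne : ((tri S W z i * stg (dlc c S) (F4.w ^ (j : ℕ)) i : 𝓞 K) : K) ≠ 0 :=
      coe_ne (mul_ne_zero (tri_ne _ _ _ _) (stgO_ne (dlc_ne_zero c S) _ _))
    exact (Cf.of_sq h5 (Sq.of_isSquare (hst i hij) hne)).1
  · subst h1
    rw [dG_one] at hst
    obtain ⟨i, hij⟩ := exists_ne_fin j
    have h6 := val_even_of_sq (v := pv 2 prime_two) (hst i hij)
    have h7 := stg_dle c S (F4.w ^ (j : ℕ)) i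
    have h1 : ((1 : ZMod 2)).val = 1 := rfl
    rw [io_pow_ne j i hij, h1, pow_one] at h7
    have h8 := (cf_tri h i).mul (Cf.stc c S (F4.w ^ (j : ℕ)) i)
    have e2 : ((2 : 𝓞 K) : K) = 2 := map_ofNat (algebraMap (𝓞 K) K) 2
    have e1 : ((tri S W z i * stg (dle c S) (F4.w ^ (j : ℕ)) i : 𝓞 K) : K) =
        ((2 : 𝓞 K) : K) * ((tri S W z i * stc c S (F4.w ^ (j : ℕ)) i : 𝓞 K) : K) := by
      rw [h7]
      push_cast
      ring
    rw [e1, map_mul, pv_self, pv_one prime_two (Cl.odd h8.1), mul_one] at h6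
    have h9 := exp_odd h6
    exact absurd h9 (by decide)

end

end Pool.Agent.Lib.MP_1a91b9_ntS.C
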