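import Pool.Agent.Lib.MP_1a91b9_ntH.C.Half
import Pool.Agent.Lib.MP_1a91b9_ntH.C.SfAdd
import Pool.Agent.Lib.MP_1a91b9_ntH.C.SfSq
import Pool.Agent.Lib.MP_1a91b9_ntH.C.Tpt
import Pool.Agent.Lib.MP_1a91b9_ntH.C.LocDefs
import Pool.Agent.Lib.MP_1a91b9_ntT.S9.KB

/-!
# MP_1a91b9_nt, converse of the descent: a cocycle with values in the 2-torsion is trivial over `L` if its
triple is the class of a point over `L`
-/

set_option autoImplicit false

namespace Pool.Agent.Lib.MP_1a91b9_ntS.C

open WeierstrassCurve WithZero NumberField IsDedekindDomain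
open Pool.Agent.Lib.MP_1a91b9_ntH.C
open Pool.Agent.Lib.MP_1a91b9_ntT.S9 (pr pr_comm pr_map pr_add eq_zero_of_pr Pts Gal coc cob trivOver
  shaCoc Sha up actP)
open scoped Classical

private theorem triv_sfn_map {k F F' : Type*} [Field k] [Field F] [Field F'] [Algebra k F]
    [Algebra k F'] (W : WeierstrassCurve k) (f : F →ₐ[k] F') (e : F) (P : Pts W F) :
    sfn (f e) (Affine.Point.map (W' := W) f P) = f (sfn e P) := by
  cases P with
  | zero => exact (map_zero f).symm
  | some X Y h =>
    rw [Affine.Point.map_some]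
    show (f X ^ 2 - 2 * f e * f X - 2 * f e ^ 2) / (2 * f Y) =
      f ((X ^ 2 - 2 * e * X - 2 * e ^ 2) / (2 * Y))
    simp only [map_div₀, map_sub, map_mul, map_pow, map_ofNat]

private theorem triv_unit {F : Type*} [Field F] [CharZero F] (u v : ℤˣ) (x : F) (hx : x ≠ 0)
    (h : ((u : ℤ) : F) * ((v : ℤ) : F) * x = x) : u = v := by
  rcases Int.units_eq_one_or u with rfl | rfl <;> rcases Int.units_eq_one_or v with rfl | rfl
  · rfl
  · exfalso
    simp at h
    apply hx
    have : (2 : F) * x = 0 := by linear_combination -h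
    simpa using this
  · exfalso
    simp at h
    apply hx
    have : (2 : F) * x = 0 := by linear_combination -h
    simpa using this
  · rfl

variable {k L : Type*} [Field k] [CharZero k] {d : k} (hd : d ≠ 0) {z : k}
    (hz : z ^ 2 + z + 1 = 0) (c : Gal k → Pts (cv d) (AlgebraicClosure k))
    (h2 : ∀ σ, c σ + c σ = 0) (a : Fin 3 → k) (b : Fin 3 → AlgebraicClosure k)
    (hk : KData hd hz c a b) [Field L] [CharZero L] [Algebra k L]

include h2 hk

/-- all the `a i` are squares in `L` -/
theorem triv_of_sq (h : ∀ i, IsSquare (algebraMap k L (a i))) : c ∈ trivOver (cv d) L := by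
  intro j
  refine ⟨0, fun σ τ hτ => ?_⟩
  have hja : ∀ x : k, j (algebraMap k (AlgebraicClosure k) x) =
      algebraMap L (AlgebraicClosure L) (algebraMap k L x) := by
    intro x
    rw [j.commutes, ← IsScalarTower.algebraMap_apply]
  have hc : c τ = 0 := by
    refine pr_ext hd hz (c τ) 0 (h2 τ) (add_zero 0) 0 fun i _ => ?_
    have h0 : pr (0 : Pts (cv d) (AlgebraicClosure k)) (tpt hd hz (AlgebraicClosure k) i) = 1 :=
      if_pos (Or.inl rfl)
    rw [h0]
    obtain ⟨s, hs⟩ := h i
    have hb : j (b i) ^ 2 = (algebraMap L (AlgebraicClosure L) s) ^ 2 := by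
      rw [← map_pow, ← hk.sq i, hja, hs, map_mul, sq]
    have hfix : σ (j (b i)) = j (b i) := by
      rcases sq_eq_sq_iff_eq_or_eq_neg.1 hb with h | h
      · rw [h]
        exact σ.commutes s
      · rw [h, map_neg]
        exact congrArg _ (σ.commutes s)
    have hfix2 : τ (b i) = b i := j.injective ((hτ (b i)).trans hfix)
    have hact := hk.act i τ
    rw [hfix2] at hact
    rcases Int.units_eq_one_or (pr (c τ) (tpt hd hz (AlgebraicClosure k) i)) with h | h
    · exact h
    · exfalso
      rw [h] at hact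
      have h3 : 2 * b i = 0 := by
        simp only [Units.val_neg, Units.val_one, Int.cast_neg, Int.cast_one] at hact
        linear_combination hact
      rcases mul_eq_zero.1 h3 with h4 | h4
      · exact two_ne_zero h4
      · exact hk.ne i h4
  rw [hc, map_zero, map_zero, sub_zero]

/-- the triple is the class of the point `(x, y)` over `L` (two of the three conditions suffice) -/
theorem triv_of_pt (x y : L) (hxy : y ^ 2 = x ^ 3 + algebraMap k L d ^ 3) (m : Fin 3)
    (hx : ∀ i, i ≠ m → x ≠ algebraMap k L (ee z d i))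
    (h : ∀ i, i ≠ m → IsSquare (algebraMap k L (a i) * (x - algebraMap k L (ee z d i)))) :
    c ∈ trivOver (cv d) L := by
  intro j
  have hja : ∀ x : k, j (algebraMap k (AlgebraicClosure k) x) =
      algebraMap L (AlgebraicClosure L) (algebraMap k L x) := by
    intro x
    rw [j.commutes, ← IsScalarTower.algebraMap_apply]
  have hdL : algebraMap k L d ≠ 0 := (map_ne_zero _).2 hd
  have hdA : algebraMap k (AlgebraicClosure L) d ≠ 0 := (map_ne_zero _).2 hd
  have hAd : algebraMap k (AlgebraicClosure L) d =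
      algebraMap L (AlgebraicClosure L) (algebraMap k L d) := IsScalarTower.algebraMap_apply _ _ _ _
  have hAe : ∀ i, algebraMap k (AlgebraicClosure L) (ee z d i) =
      algebraMap L (AlgebraicClosure L) (algebraMap k L (ee z d i)) := fun i =>
    IsScalarTower.algebraMap_apply _ _ _ _
  set Q : Pts (cv d) (AlgebraicClosure L) := Affine.Point.some (algebraMap L (AlgebraicClosure L) x)
    (algebraMap L (AlgebraicClosure L) y) ((nons_iff hdA (cv_bc (AlgebraicClosure L) d) _ _).2 (by
      rw [hAd, ← map_pow, ← map_pow, ← map_pow, ← map_add, hxy])) with hQ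
  have hQfix : ∀ σ : Gal L, Affine.Point.map (W' := cv d)
      ((σ : AlgebraicClosure L →ₐ[L] AlgebraicClosure L).restrictScalars k) Q = Q := by
    intro σ
    rw [hQ, Affine.Point.map_some, Affine.Point.some.injEq]
    exact ⟨σ.commutes x, σ.commutes y⟩
  obtain ⟨S, hS⟩ := exists_half_closed hdA (cv_bc (AlgebraicClosure L) d) Q
  refine ⟨S, fun σ τ hτ => ?_⟩
  set f := (σ : AlgebraicClosure L →ₐ[L] AlgebraicClosure L).restrictScalars k with hf
  set R := Affine.Point.map (W' := cv d) f S - S with hR
  have hR2 : R + R = 0 := by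
    have h1 : Affine.Point.map (W' := cv d) f (S + S) = S + S := by
      rw [hS]
      exact hQfix σ
    rw [map_add] at h1
    have h3 : R + R = (Affine.Point.map (W' := cv d) f S + Affine.Point.map (W' := cv d) f S) -
        (S + S) := by
      rw [hR]; abel
    rw [h3, h1, sub_self]
  have hne : S + S ≠ 0 := by
    rw [hS, hQ]
    exact Affine.Point.some_ne_zero _
  have hjinj : Function.Injective (Affine.Point.map (W' := cv d) j) := Affine.Point.map_injective j
  have hc2 : Affine.Point.map (W' := cv d) j (c τ) + Affine.Point.map (W' := cv d) j (c τ) = 0 := by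
    rw [← map_add, h2, map_zero]
  refine pr_ext hd hz _ _ hc2 hR2 m fun i him => ?_
  set e := algebraMap k (AlgebraicClosure L) (ee z d i) with he
  have he3 : e ^ 3 = -(algebraMap k (AlgebraicClosure L) d) ^ 3 := by
    rw [he, ← map_pow, ee_cube hz, map_neg, map_pow]
  have hsq := sfn_sq hdA (cv_bc (AlgebraicClosure L) d) e he3 S _ hS
  obtain ⟨κ, hκ⟩ := h i him
  have hs : σ (sfn e S) =
      (((pr R (tpt hd hz (AlgebraicClosure L) i) : ℤˣ) : ℤ) : AlgebraicClosure L) * sfn e S := by
    have h1 := triv_sfn_map (cv d) f e S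
    have h3 : f e = e := by
      rw [he]
      exact AlgHom.commutes _ _
    rw [h3] at h1
    have h4 := sfn_add hdA (cv_bc (AlgebraicClosure L) d) e he3 S R hne hR2
    have h5 : S + R = Affine.Point.map (W' := cv d) f S := by rw [hR]; abel
    rw [h5] at h4
    have h6 : pr R (tp hdA (cv_bc (AlgebraicClosure L) d) e he3) =
      pr R (tpt hd hz (AlgebraicClosure L) i) := rfl
    rw [h6] at h4
    rw [← h4]
    exact h1.symm
  have hb' : σ (j (b i)) = (((pr (Affine.Point.map (W' := cv d) j (c τ))
      (tpt hd hz (AlgebraicClosure L) i) : ℤˣ) : ℤ) : AlgebraicClosure L) * j (b i) := by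
    rw [← hτ, hk.act i τ, map_mul, map_intCast]
    have hpr : pr (Affine.Point.map (W' := cv d) j (c τ)) (tpt hd hz (AlgebraicClosure L) i) =
        pr (c τ) (tpt hd hz (AlgebraicClosure k) i) := by
      rw [← tpt_map hd hz j i]
      exact pr_map _ hjinj _ _
    rw [hpr]
  have hx2 : (j (b i) * sfn e S) ^ 2 = algebraMap L (AlgebraicClosure L) κ ^ 2 := by
    rw [mul_pow, ← map_pow, ← hk.sq i, hja, hsq, he, hAe, ← map_sub, ← map_mul, hκ, map_mul, sq]
  have hs0 : sfn e S ≠ 0 := by
    intro h0
    rw [h0] at hsq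
    have h3 : algebraMap L (AlgebraicClosure L) (x - algebraMap k L (ee z d i)) = 0 := by
      rw [map_sub, ← hAe, ← he, ← hsq]
      norm_num
    rw [map_eq_zero] at h3
    exact hx i him (sub_eq_zero.1 h3)
  have hx0 : j (b i) * sfn e S ≠ 0 := mul_ne_zero ((map_ne_zero j).2 (hk.ne i)) hs0
  have hfix : σ (j (b i) * sfn e S) = j (b i) * sfn e S := by
    rcases sq_eq_sq_iff_eq_or_eq_neg.1 hx2 with h | h
    · rw [h]
      exact σ.commutes κ
    · rw [h, map_neg]
      rw [σ.commutes κ]
  refine triv_unit _ _ (j (b i) * sfn e S) hx0 ?_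
  rw [map_mul, hs, hb'] at hfix
  linear_combination hfix

end Pool.Agent.Lib.MP_1a91b9_ntS.C
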