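import Pool.Agent.Lib.MP_1a91b9_ntS.C.Hs
import Pool.Agent.Lib.MP_1a91b9_ntS.C.Cocy
import Pool.Agent.Lib.MP_1a91b9_ntS.C.Triv
import Pool.Agent.Lib.MP_1a91b9_ntH.C.Coc
import Pool.Agent.Lib.MP_1a91b9_ntH.C.Fin

/-!
# MP_1a91b9_nt, converse of the descent: a locally trivial triple which is not trivial gives a point of
infinite order or a nonzero class in the 2-primary part of the Tate-Shafarevich group
-/

set_option autoImplicit false

namespace Pool.Agent.Lib.MP_1a91b9_ntS.C

open WeierstrassCurve WithZero NumberField IsDedekindDomain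
open Pool.Agent.Lib.MP_1a91b9_ntH.C
open Pool.Agent.Lib.MP_1a91b9_ntT3.S9 (ShaP)
open Pool.Agent.Lib.MP_1a91b9_ntT.S9 (pr pr_comm pr_map pr_add eq_zero_of_pr Pts Gal coc cob trivOver
  shaCoc Sha up actP)
open scoped Classical

private theorem conv_sfn_map {k F F' : Type*} [Field k] [Field F] [Field F'] [Algebra k F]
    [Algebra k F'] (W : WeierstrassCurve k) (f : F →ₐ[k] F') (e : F) (P : Pts W F) :
    sfn (f e) (Affine.Point.map (W' := W) f P) = f (sfn e P) := by
  cases P with
  | zero => exact (map_zero f).symm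
  | some X Y h =>
    rw [Affine.Point.map_some]
    show (f X ^ 2 - 2 * f e * f X - 2 * f e ^ 2) / (2 * f Y) =
      f ((X ^ 2 - 2 * e * X - 2 * e ^ 2) / (2 * Y))
    simp only [map_div₀, map_sub, map_mul, map_pow, map_ofNat]

private theorem conv_unit_sq {F : Type*} [Field F] (u : ℤˣ) :
    ((u : ℤ) : F) * ((u : ℤ) : F) = 1 := by
  rcases Int.units_eq_one_or u with h | h <;> simp [h]

section

variable {k : Type*} [Field k] [CharZero k] {d : k} (hd : d ≠ 0) {z : k}
    (hz : z ^ 2 + z + 1 = 0) (c : Gal k → Pts (cv d) (AlgebraicClosure k))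
    (h2 : ∀ σ, c σ + c σ = 0) (a : Fin 3 → k) (b : Fin 3 → AlgebraicClosure k)
    (hk : KData hd hz c a b)

include hk

/-- the coboundary of a point of order two is zero -/
theorem sq_of_two (R : Pts (cv d) (AlgebraicClosure k)) (hR : R + R = 0)
    (hc : ∀ σ, c σ = actP (cv d) σ R - R) (i : Fin 3) : IsSquare (a i) := by
  have hfix : ∀ σ : Gal k, σ (b i) = b i := by
    intro σ
    have hσ : actP (cv d) σ R = R := by
      rcases tpt_all hd hz R hR with h | ⟨i, h⟩
      · rw [h, map_zero]
      · rw [h]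
        exact tpt_map hd hz (σ : AlgebraicClosure k →ₐ[k] AlgebraicClosure k) i
    have h4 := hk.act i σ
    rw [hc σ, hσ, sub_self] at h4
    have h5 : pr (0 : Pts (cv d) (AlgebraicClosure k)) (tpt hd hz (AlgebraicClosure k) i) = 1 :=
      if_pos (Or.inl rfl)
    rw [h5] at h4
    rw [h4]
    simp
  obtain ⟨β, hβ⟩ := Pool.Agent.Lib.MP_1a91b9_ntT.S9.fixed_elem (k := k) (b i) hfix
  refine ⟨β, ?_⟩
  apply (algebraMap k (AlgebraicClosure k)).injective
  rw [map_mul, hβ, hk.sq i, sq]

include h2 in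
/-- if the cocycle is the coboundary of a half of `T j`, the triple is the class of `T j` -/
theorem sq_of_tpt (R : Pts (cv d) (AlgebraicClosure k)) (j : Fin 3)
    (hR : R + R = tpt hd hz (AlgebraicClosure k) j)
    (hc : ∀ σ, c σ = actP (cv d) σ R - R) (i : Fin 3) :
    IsSquare (a i * (ee z d j - ee z d i)) := by
  have hdA : algebraMap k (AlgebraicClosure k) d ≠ 0 := (map_ne_zero _).2 hd
  have hne : R + R ≠ 0 := by
    rw [hR]
    intro h0
    exact Affine.Point.some_ne_zero _ h0
  set e := algebraMap k (AlgebraicClosure k) (ee z d i) with he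
  have he3 : e ^ 3 = -(algebraMap k (AlgebraicClosure k) d) ^ 3 := by
    rw [he, ← map_pow, ee_cube hz, map_neg, map_pow]
  have hsq := sfn_sq hdA (cv_bc (AlgebraicClosure k) d) e he3 R _ hR
  have hfix : ∀ σ : Gal k, σ (b i * sfn e R) = b i * sfn e R := by
    intro σ
    have hs : σ (sfn e R) =
        (((pr (c σ) (tpt hd hz (AlgebraicClosure k) i) : ℤˣ) : ℤ) :
          AlgebraicClosure k) * sfn e R := by
      have h1 := conv_sfn_map (cv d) (σ : AlgebraicClosure k →ₐ[k] AlgebraicClosure k) e R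
      have h3 : (σ : AlgebraicClosure k →ₐ[k] AlgebraicClosure k) e = e := by
        rw [he]
        exact AlgHom.commutes _ _
      rw [h3] at h1
      have h4 := sfn_add hdA (cv_bc (AlgebraicClosure k) d) e he3 R (c σ) hne (h2 σ)
      have h5 : R + c σ = actP (cv d) σ R := by rw [hc σ]; abel
      rw [h5] at h4
      have h6 : pr (c σ) (tp hdA (cv_bc (AlgebraicClosure k) d) e he3) =
        pr (c σ) (tpt hd hz (AlgebraicClosure k) i) := rfl
      rw [h6] at h4
      rw [← h4]
      exact h1.symm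
    rw [map_mul, hs, hk.act i σ]
    have hu := conv_unit_sq (F := AlgebraicClosure k)
      (pr (c σ) (tpt hd hz (AlgebraicClosure k) i))
    linear_combination (b i * sfn e R) * hu
  obtain ⟨β, hβ⟩ := Pool.Agent.Lib.MP_1a91b9_ntT.S9.fixed_elem (k := k) _ hfix
  refine ⟨β, ?_⟩
  apply (algebraMap k (AlgebraicClosure k)).injective
  rw [map_mul (algebraMap k (AlgebraicClosure k)) β β, hβ, map_mul, map_sub, hk.sq i, ← he, ← hsq]
  ring

end

/-- a finite abelian group without elements of order four -/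
theorem half_of_finite {A : Type*} [AddCommGroup A] [Finite A] (h4 : ∀ x : A, 4 • x = 0 → 2 • x = 0)
    (P : A) : ∃ T Q : A, T + T = 0 ∧ P = T + (Q + Q) := by
  obtain ⟨m, n, hn, hm⟩ := Nat.exists_eq_two_pow_mul_odd (n := addOrderOf P)
    (addOrderOf_pos P).ne'
  have h0 : 2 ^ m • (n • P) = 0 := by
    rw [smul_smul, ← hm, addOrderOf_nsmul_eq_zero]
  have key : ∀ j : ℕ, ∀ x : A, 2 ^ j • x = 0 → 2 • x = 0 := by
    intro j
    induction j with
    | zero =>
      intro x hx
      rw [pow_zero, one_smul] at hx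
      rw [hx, smul_zero]
    | succ j ih =>
      intro x hx
      have h1 : 2 ^ j • (2 • x) = 0 := by rw [smul_smul, ← pow_succ, hx]
      have h2 := ih _ h1
      rw [smul_smul] at h2
      exact h4 x h2
  have hT : 2 • (n • P) = 0 := key m _ h0
  obtain ⟨l, hl⟩ := hn
  refine ⟨n • P, -(l • P), by rw [← two_smul ℕ]; exact hT, ?_⟩
  rw [hl, add_smul, one_smul, mul_smul, two_smul]
  abel

section

variable {N : Type*} [Field N] [NumberField N] {d : N} (hd : d ≠ 0) {z : N}
  (hz : z ^ 2 + z + 1 = 0)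

/-- the local condition makes the cocycle locally trivial -/
theorem triv_of_gloc (c : Gal N → Pts (cv d) (AlgebraicClosure N)) (h2 : ∀ σ, c σ + c σ = 0)
    (a : Fin 3 → N) (b : Fin 3 → AlgebraicClosure N) (hk : KData hd hz c a b)
    (v : HeightOneSpectrum (𝓞 N)) (h : GLoc (v.valuation N) z d a) :
    c ∈ trivOver (cv d) (v.adicCompletion N) := by
  have : CharZero (v.adicCompletion N) :=
    charZero_of_injective_algebraMap (algebraMap N (v.adicCompletion N)).injective
  have hinj := (algebraMap N (v.adicCompletion N)).injective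
  have hne : ∀ u : N, Sq (v.valuation N) u → u ≠ 0 := by
    rintro u ⟨b, hb, h⟩ rfl
    rw [zero_div, zero_sub, Valuation.map_neg, map_one] at h
    have h4 : v.valuation N (4 : N) ≤ 1 := by
      have h5 := HeightOneSpectrum.valuation_le_one (K := N) v (4 : 𝓞 N)
      have h6 : algebraMap (𝓞 N) N 4 = 4 := map_ofNat _ 4
      exact h6 ▸ h5
    exact absurd (h.trans_le h4) (lt_irrefl _)
  have hzL : ∀ i : Fin 3, algebraMap N (v.adicCompletion N) (ee z d i) ^ 3 =
      -(algebraMap N (v.adicCompletion N) d) ^ 3 := fun i => by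
    rw [← map_pow, ee_cube hz, map_neg, map_pow]
  rcases h with h | ⟨j, h⟩ | ⟨x, hx, h⟩
  · exact triv_of_sq hd hz c h2 a b hk fun i => isSquare_of_Sq v _ (h i)
  · refine triv_of_pt hd hz c h2 a b hk (algebraMap N (v.adicCompletion N) (ee z d j)) 0
      (by rw [hzL]; ring) j (fun i hi h0 => ?_) fun i hi => ?_
    · have h1 := hne _ (h i hi)
      apply h1
      rw [hinj h0, sub_self, mul_zero]
    · rw [← map_sub, ← map_mul]
      exact isSquare_of_Sq v _ (h i hi)
  · obtain ⟨y, hy⟩ := isSquare_of_Sq v _ hx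
    refine triv_of_pt hd hz c h2 a b hk (algebraMap N (v.adicCompletion N) x) y ?_ 0
      (fun i _ h0 => ?_) fun i _ => ?_
    · rw [← map_pow, ← map_pow, ← map_add, hy, sq]
    · apply hne _ hx
      rw [hinj h0, ee_cube hz]
      ring
    · rw [← map_sub, ← map_mul]
      exact isSquare_of_Sq v _ (h i)

include hd hz in
private theorem no_four0 (hm : ¬ IsSquare (-1 : N)) (x : Pts (cv d) N) (h : 4 • x = 0) :
    2 • x = 0 := by
  by_contra hne
  rw [two_smul] at hne
  have h4 : (x + x) + (x + x) = 0 := by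
    rw [← h]
    abel
  rcases tpt_all hd hz (x + x) h4 with h0 | ⟨j, hj⟩
  · exact hne h0
  · have hdN : algebraMap N N d ≠ 0 := (map_ne_zero _).2 hd
    have hkey : ∀ i, sfn (algebraMap N N (ee z d i)) x ^ 2 = ee z d j - ee z d i := by
      intro i
      have he3 : (algebraMap N N (ee z d i)) ^ 3 = -(algebraMap N N d) ^ 3 := by
        rw [← map_pow, ee_cube hz, map_neg, map_pow]
      exact sfn_sq hdN (cv_bc N d) _ he3 x _ hj
    have hz0 : z ≠ 0 := by
      rintro rfl
      norm_num at hz
    have hz3 : z ^ 3 = 1 := by linear_combination (z - 1) * hz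
    have hz1 : z ≠ 1 := by
      rintro rfl
      norm_num at hz
    apply hm
    set s := fun i : Fin 3 => sfn (algebraMap N N (ee z d i)) x with hs
    have k0 : s 0 ^ 2 = ee z d j - ee z d 0 := hkey 0
    have k1 : s 1 ^ 2 = ee z d j - ee z d 1 := hkey 1
    have k2 : s 2 ^ 2 = ee z d j - ee z d 2 := hkey 2
    have e0 : ee z d 0 = -d := by simp [ee]
    have e1 : ee z d 1 = -(z * d) := by simp [ee]
    have e2 : ee z d 2 = -(z ^ 2 * d) := by simp [ee]
    rw [e0] at k0
    rw [e1] at k1
    rw [e2] at k2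
    have hzd : (1 - z) * d ≠ 0 := mul_ne_zero (sub_ne_zero.2 hz1.symm) hd
    fin_cases j
    · -- s 1 ^ 2 = (z - 1) d, s 2 ^ 2 = (z ^ 2 - 1) d = -z ^ 2 (z - 1) d
      simp only [Fin.zero_eta, e0] at k1 k2
      have hs1 : s 1 ≠ 0 := by
        intro h0
        rw [h0] at k1
        apply hzd
        linear_combination k1
      refine ⟨z ^ 2 * s 2 / s 1, ?_⟩
      rw [div_mul_div_comm, eq_div_iff (mul_ne_zero hs1 hs1)]
      linear_combination -k1 - z ^ 4 * k2 - d * (z ^ 3 + 1 - z) * hz3
    · simp only [Fin.mk_one, e1] at k0 k2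
      have hs0 : s 0 ≠ 0 := by
        intro h0
        rw [h0] at k0
        apply hzd
        linear_combination -k0
      refine ⟨z * s 2 / s 0, ?_⟩
      rw [div_mul_div_comm, eq_div_iff (mul_ne_zero hs0 hs0)]
      linear_combination -k0 - z ^ 2 * k2 + (1 - z) * d * hz3
    · simp only [Fin.reduceFinMk, e2] at k0 k1
      have hs0 : s 0 ≠ 0 := by
        intro h0
        rw [h0] at k0
        have h1 : (1 - z) * d * (1 + z) = 0 := by linear_combination -k0
        rcases mul_eq_zero.1 h1 with h2 | h2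
        · exact hzd h2
        · have h3 : z * z = 0 := by linear_combination hz - h2
          exact hz0 (mul_self_eq_zero.1 h3)
      refine ⟨z ^ 2 * s 1 / s 0, ?_⟩
      rw [div_mul_div_comm, eq_div_iff (mul_ne_zero hs0 hs0)]
      linear_combination -k0 - z ^ 4 * k1 - d * (z ^ 2 - z ^ 3 - 1) * hz3

include hd hz in
/-- A locally trivial triple which is not trivial: the group of points is infinite, or the 2-primary part
of the Tate-Shafarevich group is not trivial. -/
theorem conv_sel (hm : ¬ IsSquare (-1 : N)) (hinf : ∀ v : InfinitePlace N, v.IsComplex)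
    (a : Fin 3 → N) (ha : ∀ i, a i ≠ 0) (hp : IsSquare (a 0 * a 1 * a 2))
    (hloc : ∀ v : HeightOneSpectrum (𝓞 N), GLoc (v.valuation N) z d a)
    (hne : ¬ ((∀ i, IsSquare (a i)) ∨
      ∃ j, ∀ i, i ≠ j → IsSquare (a i * (ee z d j - ee z d i))))
    {W : WeierstrassCurve N} (hW : W = cv d) (hfin : Finite W.toAffine.Point) :
    Nat.card (ShaP 2 W) ≠ 1 := by
  subst hW
  intro hcard
  obtain ⟨c, b, hc, h2, hk⟩ := exists_cocycle hd hz a ha hp
  have hsha : c ∈ shaCoc (cv d) := by
    refine ⟨⟨hc, ?_⟩, ?_⟩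
    · refine AddSubgroup.mem_iInf.2 fun v => triv_of_gloc hd hz c h2 a b hk v (hloc v)
    · refine AddSubgroup.mem_iInf.2 fun v => ?_
      have : CharZero v.Completion :=
        charZero_of_injective_algebraMap (algebraMap N v.Completion).injective
      exact triv_of_sq hd hz c h2 a b hk fun i => by
        let e := InfinitePlace.Completion.ringEquivComplexOfIsComplex (hinf v)
        obtain ⟨y, hy⟩ := IsAlgClosed.exists_pow_nat_eq (e (algebraMap N v.Completion (a i)))
          (n := 2) (by norm_num)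
        refine ⟨e.symm y, e.injective ?_⟩
        rw [map_mul, e.apply_symm_apply, ← hy, sq]
  -- the class is zero
  have hcob : c ∈ cob (cv d) := by
    have hx : ∀ x : AddCommGroup.primaryComponent (Sha (cv d)) 2, x = 0 := by
      intro x
      have h1 := (Nat.card_eq_one_iff_unique.1 hcard).1
      exact Subsingleton.elim _ _
    let y : Sha (cv d) := QuotientAddGroup.mk (⟨c, hsha⟩ : shaCoc (cv d))
    have hy : 2 ^ 1 • y = 0 := by
      rw [pow_one, two_smul]
      show (QuotientAddGroup.mk ((⟨c, hsha⟩ : shaCoc (cv d)) + ⟨c, hsha⟩) : Sha (cv d)) = 0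
      rw [QuotientAddGroup.eq_zero_iff, AddSubgroup.mem_addSubgroupOf]
      refine ⟨0, fun σ => ?_⟩
      rw [map_zero, sub_zero]
      exact h2 σ
    have h3 := congrArg Subtype.val (hx ⟨y, 1, hy⟩)
    have h4 : (QuotientAddGroup.mk (⟨c, hsha⟩ : shaCoc (cv d)) : Sha (cv d)) = 0 := h3
    rw [QuotientAddGroup.eq_zero_iff, AddSubgroup.mem_addSubgroupOf] at h4
    exact h4
  obtain ⟨R, hR⟩ := hcob
  have hR' : ∀ σ, c σ = actP (cv d) σ R - R := hR
  -- the point `R + R` comes from `N`
  obtain ⟨P, hP⟩ := Pool.Agent.Lib.MP_1a91b9_ntT.S9.fixed_pt (L := N) (cv d) (R + R) fun σ => by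
    have h1 : Affine.Point.map ((σ : AlgebraicClosure N →ₐ[N] AlgebraicClosure N).restrictScalars N)
        (R + R) = actP (cv d) σ (R + R) := rfl
    rw [h1, map_add]
    have h3 := h2 σ
    rw [hR' σ] at h3
    have h4 : actP (cv d) σ R + actP (cv d) σ R = (actP (cv d) σ R - R +
      (actP (cv d) σ R - R)) + (R + R) := by abel
    rw [h4, h3, zero_add]
  have hfin' : Finite (Pts (cv d) N) := by
    have e : (Affine.baseChange (cv d) N) = (cv d).toAffine := cv_bc N d
    show Finite (Affine.baseChange (cv d) N).Point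
    rw [e]
    exact hfin
  obtain ⟨T, Q, hT, hPQ⟩ := half_of_finite (no_four0 hd hz hm) P
  have hup : ∀ (σ : Gal N) (P : Pts (cv d) N),
      actP (cv d) σ (up (cv d) N (AlgebraicClosure N) P) = up (cv d) N (AlgebraicClosure N) P := by
    intro σ P
    show Affine.Point.map _ (Affine.Point.map _ _) = _
    rw [Affine.Point.map_map]
    have hcomp : (σ : AlgebraicClosure N →ₐ[N] AlgebraicClosure N).comp
        (IsScalarTower.toAlgHom N N (AlgebraicClosure N)) =
        IsScalarTower.toAlgHom N N (AlgebraicClosure N) := AlgHom.ext fun x => σ.commutes x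
    rw [hcomp]
  set R₁ := R - up (cv d) N (AlgebraicClosure N) Q with hR₁
  have hc1 : ∀ σ, c σ = actP (cv d) σ R₁ - R₁ := by
    intro σ
    rw [hR₁, map_sub, hup, hR' σ]
    abel
  have hR2 : R₁ + R₁ = up (cv d) N (AlgebraicClosure N) T := by
    have h1 : up (cv d) N (AlgebraicClosure N) P = R + R := hP
    rw [hPQ, map_add, map_add] at h1
    have h3 : R₁ + R₁ = (R + R) - (up (cv d) N (AlgebraicClosure N) Q +
        up (cv d) N (AlgebraicClosure N) Q) := by
      rw [hR₁]
      abel
    rw [h3, ← h1]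
    abel
  apply hne
  rcases tpt_all hd hz T hT with h0 | ⟨j, hj⟩
  · left
    refine sq_of_two hd hz c a b hk R₁ ?_ hc1
    rw [hR2, h0, map_zero]
  · right
    refine ⟨j, fun i _ => sq_of_tpt hd hz c h2 a b hk R₁ j ?_ hc1 i⟩
    rw [hR2, hj]
    exact tpt_map hd hz _ j

end

end Pool.Agent.Lib.MP_1a91b9_ntS.C
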