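import Pool.Agent.Lib.MP_1a91b9_ntS.C.Asm
import Pool.Agent.Lib.MP_1a91b9_ntS.C.Conv

/-!
# MP_1a91b9_nt, converse of the descent: if the determinant is zero, the group of points is infinite or
the 2-primary part of the Tate-Shafarevich group is not trivial
-/

set_option autoImplicit false
set_option linter.unusedSectionVars false
set_option linter.unusedVariables false
set_option linter.unusedSimpArgs false

namespace Pool.Agent.Lib.MP_1a91b9_ntS.C

open WeierstrassCurve NumberField Finset WithZero IsDedekindDomain Pool.Agent.Lib.MP_1a91b9_ntT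
open Pool.Agent.Lib.MP_1a91b9_ntH (F4 wO s3 Pq qd om_quad)
open Pool.Agent.Lib.MP_1a91b9_ntH.C (GLoc ee Sq cv)
open Pool.Agent.Lib.MP_1a91b9_ntH.C.Sel (pv prime_two io)
open Pool.Agent.Lib.MP_1a91b9_ntH2 (dlc tw tw_s tw_a cj_add_of)
open Pool.Agent.Lib.MP_1a91b9_ntH2.C (dlc_ne_zero)
open Pool.Agent.Lib.MP_1a91b9_ntE
open Pool.Agent.Lib.MP_1a91b9_ntE.C
open Pool.Agent.Lib.MP_1a91b9_ntT3.S9 (ShaP)
open scoped Classical

noncomputable section

theorem neg_one_not_sq : ¬ IsSquare (-1 : K) := by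
  intro h
  have h1 : ((-1 : 𝓞 K) : K) = -1 := by
    push_cast
    rfl
  rw [← h1] at h
  have h2 : ((-1 : 𝓞 K) : K) ≠ 0 := by
    rw [h1]
    norm_num
  have h3 := (Cf.of_sq Cf.neg_one (Pool.Agent.Lib.MP_1a91b9_ntH.C.Sq.of_isSquare h h2)).1
  exact absurd h3 (by decide)

theorem complex_K (v : InfinitePlace K) : v.IsComplex := by
  rw [← InfinitePlace.not_isReal_iff_isComplex]
  intro h
  have h3 := congrArg (InfinitePlace.embedding_of_isReal h) om_quad
  rw [map_add, map_add, map_pow, map_one, map_zero] at h3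
  nlinarith [sq_nonneg (2 * InfinitePlace.embedding_of_isReal h om + 1)]

theorem row_of_odd (c : F4) (S : Finset Pq) (h : ((tw c qd).M S).det = 0) :
    ∃ W : Pq → F4, Row 0 c S W 0 ∧ ¬ ((∀ q ∈ S, W q = 0) ∧ (0 : F4) = 0) := by
  obtain ⟨v, hv0, hv⟩ := Matrix.exists_mulVec_eq_zero_iff.2 h
  obtain ⟨V, hV⟩ : ∃ V : Pq → F4, ∀ q : S, V q = v q :=
    ⟨fun q => if hq : q ∈ S then v ⟨q, hq⟩ else 0, fun q => by simp⟩
  have hvV : v = fun i : S => V i := funext fun q => (hV q).symm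
  refine ⟨fun q => F4.cj (V q), ⟨fun q hq => ?_, fun _ => rfl, fun h => absurd h (by decide)⟩, ?_⟩
  · have h1 := congrFun hv ⟨q, hq⟩
    rw [hvV, (tw c qd).M_mulVec S V ⟨q, hq⟩, tw_a, cj_add_of] at h1
    simp only [tw_s] at h1
    have h2 := congrArg F4.cj h1
    have h0 : (0 : S → F4) ⟨q, hq⟩ = 0 := rfl
    rw [h0] at h2
    simp only [F4.cj_add, F4.cj_mul, F4.cj_sum, F4.cj_of, F4.cj_zero, F4.cj_cj] at h2
    rw [Pool.Agent.Lib.MP_1a91b9_ntH.C.Sel.of_sum, zero_mul, mul_zero]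
    have h3 : F4.of 0 = 0 := rfl
    rw [h3]
    linear_combination h2
  · rintro ⟨h1, -⟩
    apply hv0
    funext q
    have h2 := h1 q q.2
    rw [← hV q]
    have h3 := congrArg F4.cj h2
    rwa [F4.cj_cj, F4.cj_zero] at h3

theorem row_of_even (c : F4) (S : Finset Pq) (h : (qE.NE c S).det = 0) :
    ∃ (W : Pq → F4) (z : F4), Row 1 c S W z ∧ ¬ ((∀ q ∈ S, W q = 0) ∧ z = 0) := by
  obtain ⟨v, hv0, hv⟩ := Matrix.exists_mulVec_eq_zero_iff.2 h
  obtain ⟨V, hV⟩ : ∃ V : Pq → F4, ∀ q : S, V q = v (Sum.inl q) :=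
    ⟨fun q => if hq : q ∈ S then v (Sum.inl ⟨q, hq⟩) else 0, fun q => by simp⟩
  have hu : ∀ f : Unit → F4, ∑ u, f u = f () := fun f => Fintype.sum_unique f
  refine ⟨fun q => F4.cj (V q), F4.cj (v (Sum.inr ())),
    ⟨fun q hq => ?_, fun h => absurd h (by decide), fun _ => ?_⟩, ?_⟩
  · have h1 := congrFun hv (Sum.inl ⟨q, hq⟩)
    rw [Matrix.mulVec, dotProduct, Fintype.sum_sum_type, hu] at h1
    simp only [NE_ll, NE_lr] at h1
    rw [← Finset.sum_erase_add _ _ (mem_univ (⟨q, hq⟩ : S)), if_pos rfl] at h1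
    have e2 : ∑ j ∈ (univ : Finset S).erase ⟨q, hq⟩, (if (⟨q, hq⟩ : S) = j then
        F4.cj (qd.a (⟨q, hq⟩ : S)) + F4.of (F4.tr (c * qd.a (⟨q, hq⟩ : S))) +
        F4.of (qE.g (⟨q, hq⟩ : S)) +
        ∑ k ∈ S.erase ((⟨q, hq⟩ : S) : Pq), F4.of (qd.s (⟨q, hq⟩ : S) k) else
          F4.of (qd.s (⟨q, hq⟩ : S) j)) * v (Sum.inl j) =
          ∑ p ∈ S.erase q, F4.of (qd.s q p) * V p := by
      refine Finset.sum_bij (fun (j : S) _ => (j : Pq)) ?_ ?_ ?_ ?_
      · intro j hj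
        exact mem_erase.2 ⟨fun h => ne_of_mem_erase hj (Subtype.ext h), j.2⟩
      · intro j _ k _ hjk
        exact Subtype.ext hjk
      · intro p hp
        exact ⟨⟨p, mem_of_mem_erase hp⟩, mem_erase.2
          ⟨fun h => ne_of_mem_erase hp (congrArg Subtype.val h), mem_univ _⟩, rfl⟩
      · intro j hj
        rw [if_neg (ne_of_mem_erase hj).symm, hV j]
    rw [e2, ← hV ⟨q, hq⟩] at h1
    have h2 := congrArg F4.cj h1
    have h0 : (0 : S ⊕ Unit → F4) (Sum.inl ⟨q, hq⟩) = 0 := rfl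
    rw [h0] at h2
    simp only [F4.cj_add, F4.cj_mul, F4.cj_sum, F4.cj_of, F4.cj_zero, F4.cj_cj] at h2
    rw [Pool.Agent.Lib.MP_1a91b9_ntH.C.Sel.of_sum, one_mul]
    linear_combination h2
  · have h1 := congrFun hv (Sum.inr ())
    rw [Matrix.mulVec, dotProduct, Fintype.sum_sum_type, hu] at h1
    simp only [NE_rl, NE_rr] at h1
    have e1 : ∑ j : S, F4.of (fq j) * v (Sum.inl j) = ∑ q ∈ S, F4.of (fq q) * V q := by
      rw [← Finset.sum_coe_sort S (fun q => F4.of (fq q) * V q)]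
      exact sum_congr rfl fun j _ => by rw [hV j]
    rw [e1] at h1
    have h2 := congrArg F4.cj h1
    have h0 : (0 : S ⊕ Unit → F4) (Sum.inr ()) = 0 := rfl
    rw [h0] at h2
    simp only [F4.cj_add, F4.cj_mul, F4.cj_sum, F4.cj_of, F4.cj_zero] at h2
    have h3 : (2 : F4) = 0 := by decide
    linear_combination h2 - (F4.cj c * F4.cj (v (Sum.inr ()))) * h3
  · rintro ⟨h1, h2⟩
    apply hv0
    funext x
    rcases x with q | u
    · have h2 := h1 q q.2
      rw [← hV q]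
      have h3 := congrArg F4.cj h2
      rwa [F4.cj_cj, F4.cj_zero] at h3
    · have h3 := congrArg F4.cj h2
      rwa [F4.cj_cj, F4.cj_zero] at h3

/-- **The converse**, odd twists. -/
theorem conv_odd (hG : GoodV) (c : F4) (S : Finset Pq) (h : ((tw c qd).M S).det = 0)
    {W : WeierstrassCurve K} (hW : W = cv ((dlc c S : 𝓞 K) : K)) (hfin : Finite W.toAffine.Point) :
    Nat.card (ShaP 2 W) ≠ 1 := by
  obtain ⟨V, hV, hne⟩ := row_of_odd c S h
  have hloc := tri_loc hG hV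
  have ht := tri_not_tors hV
  rw [dG_zero] at ht hloc
  refine conv_sel (coe_ne (dlc_ne_zero c S)) om_quad neg_one_not_sq complex_K
    (fun i => (tri S V 0 i : K)) (fun i => coe_ne (tri_ne S V 0 i)) (triK_prod S V 0)
    hloc ?_ hW hfin
  rintro (h1 | ⟨j, h1⟩)
  · exact tri_not_sq hne h1
  · exact ht j h1

/-- **The converse**, even twists. -/
theorem conv_even (hG : GoodV) (c : F4) (S : Finset Pq) (h : (qE.NE c S).det = 0)
    {W : WeierstrassCurve K} (hW : W = cv ((dle c S : 𝓞 K) : K)) (hfin : Finite W.toAffine.Point) :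
    Nat.card (ShaP 2 W) ≠ 1 := by
  obtain ⟨V, z, hV, hne⟩ := row_of_even c S h
  have hloc := tri_loc hG hV
  have ht := tri_not_tors hV
  rw [dG_one] at ht hloc
  refine conv_sel (coe_ne (dle_ne c S)) om_quad neg_one_not_sq complex_K
    (fun i => (tri S V z i : K)) (fun i => coe_ne (tri_ne S V z i)) (triK_prod S V z)
    hloc ?_ hW hfin
  rintro (h1 | ⟨j, h1⟩)
  · exact tri_not_sq hne h1
  · exact ht j h1

end

end Pool.Agent.Lib.MP_1a91b9_ntS.C
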