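import Pool.Agent.Lib.MP_1a91b9_ntS.C.GoodF
import Mathlib.NumberTheory.NumberField.Basic
import Mathlib.RingTheory.DedekindDomain.AdicValuation

/-!
# MP_1a91b9_nt, converse of the descent: the local conditions at the good places

At a place where `2`, `3` and `d` are units every triple of elements of even valuation with square
product satisfies the local condition.
-/

set_option autoImplicit false

namespace Pool.Agent.Lib.MP_1a91b9_ntS.C

open WithZero NumberField IsDedekindDomain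
open Pool.Agent.Lib.MP_1a91b9_ntH.C
open scoped Classical

section

variable {N : Type*} [Field N] [NumberField N] (v : HeightOneSpectrum (𝓞 N))

/-- `x` is integral at `v` with the residue `r`. -/
def Rs (x : N) (r : 𝓞 N ⧸ v.asIdeal) : Prop :=
  ∃ y : 𝓞 N, Ideal.Quotient.mk v.asIdeal y = r ∧ v.valuation N (x - algebraMap (𝓞 N) N y) < 1

theorem rs_val_lt {y : 𝓞 N} : v.valuation N (algebraMap (𝓞 N) N y) < 1 ↔
    Ideal.Quotient.mk v.asIdeal y = 0 := by
  rw [v.valuation_lt_one_iff_mem, Ideal.Quotient.eq_zero_iff_mem]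

theorem rs_le {x : N} {r : 𝓞 N ⧸ v.asIdeal} (h : Rs v x r) : v.valuation N x ≤ 1 := by
  obtain ⟨y, _, hy⟩ := h
  have h1 := (v.valuation N).map_add_le hy.le (v.valuation_le_one y)
  rwa [sub_add_cancel] at h1

theorem rs_int (y : 𝓞 N) : Rs v (algebraMap (𝓞 N) N y) (Ideal.Quotient.mk v.asIdeal y) :=
  ⟨y, rfl, by rw [sub_self, map_zero]; exact zero_lt_one⟩

theorem exists_rs {x : N} (h : v.valuation N x ≤ 1) : ∃ r, Rs v x r := by
  obtain ⟨y, hy⟩ := v.exists_valuation_sub_lt_of_integer (K := N) h 1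
  refine ⟨_, y, rfl, ?_⟩
  rw [Valuation.map_sub_swap]
  simpa using hy

theorem rs_surj (r : 𝓞 N ⧸ v.asIdeal) : ∃ x : N, Rs v x r := by
  obtain ⟨y, rfl⟩ := Ideal.Quotient.mk_surjective r
  exact ⟨_, rs_int v y⟩

theorem rs_unique {x : N} {r s : 𝓞 N ⧸ v.asIdeal} (h : Rs v x r) (h' : Rs v x s) : r = s := by
  obtain ⟨y, rfl, hy⟩ := h
  obtain ⟨y', rfl, hy'⟩ := h'
  rw [← sub_eq_zero, ← map_sub, ← rs_val_lt]
  have h1 := (v.valuation N).map_sub_lt hy' hy
  have e : x - algebraMap (𝓞 N) N y' - (x - algebraMap (𝓞 N) N y) =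
      algebraMap (𝓞 N) N (y - y') := by
    rw [map_sub]
    ring
  rwa [e] at h1

theorem rs_zero_iff {x : N} {r : 𝓞 N ⧸ v.asIdeal} (h : Rs v x r) :
    v.valuation N x = 1 ↔ r ≠ 0 := by
  obtain ⟨y, rfl, hy⟩ := h
  rw [ne_eq, ← rs_val_lt, not_lt]
  constructor
  · intro h1
    by_contra hcon
    push Not at hcon
    have h2 := (v.valuation N).map_add_lt hy hcon
    rw [sub_add_cancel, h1] at h2
    exact lt_irrefl _ h2
  · intro h1
    refine le_antisymm (rs_le v ⟨y, rfl, hy⟩) ?_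
    by_contra hcon
    push Not at hcon
    have h2 := (v.valuation N).map_sub_lt hcon hy
    rw [sub_sub_cancel] at h2
    exact absurd h2 (not_lt.2 h1)

theorem rs_add {x x' : N} {r r' : 𝓞 N ⧸ v.asIdeal} (h : Rs v x r) (h' : Rs v x' r') :
    Rs v (x + x') (r + r') := by
  obtain ⟨y, rfl, hy⟩ := h
  obtain ⟨y', rfl, hy'⟩ := h'
  refine ⟨y + y', map_add _ _ _, ?_⟩
  have e : x + x' - algebraMap (𝓞 N) N (y + y') =
      (x - algebraMap (𝓞 N) N y) + (x' - algebraMap (𝓞 N) N y') := by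
    rw [map_add]
    ring
  rw [e]
  exact (v.valuation N).map_add_lt hy hy'

theorem rs_neg {x : N} {r : 𝓞 N ⧸ v.asIdeal} (h : Rs v x r) : Rs v (-x) (-r) := by
  obtain ⟨y, rfl, hy⟩ := h
  refine ⟨-y, map_neg _ _, ?_⟩
  have e : -x - algebraMap (𝓞 N) N (-y) = -(x - algebraMap (𝓞 N) N y) := by
    rw [map_neg]
    ring
  rwa [e, Valuation.map_neg]

theorem rs_sub {x x' : N} {r r' : 𝓞 N ⧸ v.asIdeal} (h : Rs v x r) (h' : Rs v x' r') :
    Rs v (x - x') (r - r') := by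
  rw [sub_eq_add_neg, sub_eq_add_neg]
  exact rs_add v h (rs_neg v h')

theorem rs_mul {x x' : N} {r r' : 𝓞 N ⧸ v.asIdeal} (h : Rs v x r) (h' : Rs v x' r') :
    Rs v (x * x') (r * r') := by
  have hx' := rs_le v h'
  obtain ⟨y, rfl, hy⟩ := h
  obtain ⟨y', rfl, hy'⟩ := h'
  refine ⟨y * y', map_mul _ _ _, ?_⟩
  have e : x * x' - algebraMap (𝓞 N) N (y * y') =
      (x - algebraMap (𝓞 N) N y) * x' +
        algebraMap (𝓞 N) N y * (x' - algebraMap (𝓞 N) N y') := by
    rw [map_mul]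
    ring
  rw [e]
  refine (v.valuation N).map_add_lt ?_ ?_
  · rw [map_mul]
    calc _ ≤ v.valuation N (x - algebraMap (𝓞 N) N y) * 1 := by gcongr
      _ < 1 := by rw [mul_one]; exact hy
  · rw [map_mul]
    calc _ ≤ 1 * v.valuation N (x' - algebraMap (𝓞 N) N y') := by
          gcongr
          exact v.valuation_le_one y
      _ < 1 := by rw [one_mul]; exact hy'

theorem rs_one : Rs v (1 : N) 1 := by
  have h := rs_int v (1 : 𝓞 N)
  rwa [map_one, map_one] at h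

theorem rs_pow {x : N} {r : 𝓞 N ⧸ v.asIdeal} (h : Rs v x r) (n : ℕ) : Rs v (x ^ n) (r ^ n) := by
  induction n with
  | zero =>
    rw [pow_zero, pow_zero]
    exact rs_one v
  | succ n ih =>
    rw [pow_succ, pow_succ]
    exact rs_mul v ih h

/-- a unit whose residue is a square is a square up to a factor near `1` -/
theorem sq_of_rs (h4 : v.valuation N 4 = 1) {u : N} {r : 𝓞 N ⧸ v.asIdeal} (h : Rs v u r)
    (hr : r ≠ 0) (hs : IsSquare r) : Sq (v.valuation N) u := by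
  obtain ⟨s, hs⟩ := hs
  obtain ⟨b, hb⟩ := rs_surj v s
  have hs0 : s ≠ 0 := by
    rintro rfl
    rw [mul_zero] at hs
    exact hr hs
  have hb1 : v.valuation N b = 1 := (rs_zero_iff v hb).2 hs0
  have hb0 : b ≠ 0 := by
    rintro rfl
    rw [map_zero] at hb1
    exact zero_ne_one hb1
  refine ⟨b, hb0, ?_⟩
  have h1 := rs_sub v h (rs_pow v hb 2)
  have h2 : r - s ^ 2 = 0 := by
    rw [hs]
    ring
  rw [h2] at h1
  have e : u / b ^ 2 - 1 = (u - b ^ 2) / b ^ 2 := by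
    field_simp
  rw [e, map_div₀, map_pow, hb1, one_pow, div_one, h4]
  refine lt_of_le_of_ne (rs_le v h1) fun h3 => ?_
  exact (rs_zero_iff v h1).1 h3 rfl

/-- a factor which is a square does not matter -/
theorem sq_mul {ν : Valuation N ℤᵐ⁰} {u b : N} (hb : b ≠ 0) (h : Sq ν (u / b ^ 2)) : Sq ν u := by
  obtain ⟨c, hc, h⟩ := h
  refine ⟨b * c, mul_ne_zero hb hc, ?_⟩
  have e : u / (b * c) ^ 2 - 1 = u / b ^ 2 / c ^ 2 - 1 := by
    field_simp
  rwa [e]

/-- **S3**: the local condition at the good places. -/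
theorem gloc_good (h2 : v.valuation N 2 = 1) (h3 : v.valuation N 3 = 1) {z d : N}
    (hd : v.valuation N d = 1) (hz : z ^ 2 + z + 1 = 0) (a : Fin 3 → N) (ha : ∀ i, a i ≠ 0)
    (he : ∀ i, ∃ b : N, v.valuation N (a i) = v.valuation N b ^ 2)
    (hp : IsSquare (a 0 * a 1 * a 2)) : GLoc (v.valuation N) z d a := by
  letI : Field (𝓞 N ⧸ v.asIdeal) := Ideal.Quotient.field v.asIdeal
  haveI : Finite (𝓞 N ⧸ v.asIdeal) := Ideal.finiteQuotientOfFreeOfNeBot _ v.ne_bot
  have h4 : v.valuation N 4 = 1 := by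
    have e : (4 : N) = 2 * 2 := by norm_num
    rw [e, map_mul, h2, one_mul]
  have hr2 : (2 : 𝓞 N ⧸ v.asIdeal) ≠ 0 := by
    have h5 := rs_int v (2 : 𝓞 N)
    rw [map_ofNat, map_ofNat] at h5
    exact (rs_zero_iff v h5).1 h2
  have hr3 : (3 : 𝓞 N ⧸ v.asIdeal) ≠ 0 := by
    have h5 := rs_int v (3 : 𝓞 N)
    rw [map_ofNat, map_ofNat] at h5
    exact (rs_zero_iff v h5).1 h3
  obtain ⟨δ, hδ⟩ := exists_rs v hd.le
  have hδ0 : δ ≠ 0 := (rs_zero_iff v hδ).1 hd
  have hz3 : z ^ 3 = 1 := by linear_combination (z - 1) * hz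
  have hvz : v.valuation N z = 1 := by
    have h5 : v.valuation N z ^ 3 = 1 := by rw [← map_pow, hz3, map_one]
    exact (pow_eq_one_iff_of_nonneg zero_le (by norm_num)).1 h5
  obtain ⟨ζ, hζ⟩ := exists_rs v hvz.le
  have hζ1 : ζ ^ 2 + ζ + 1 = 0 := by
    have h5 := rs_add v (rs_add v (rs_pow v hζ 2) hζ) (rs_one v)
    rw [hz] at h5
    have h6 := rs_int v (0 : 𝓞 N)
    rw [map_zero, map_zero] at h6
    exact rs_unique v h5 h6
  have hee : ∀ i, Rs v (ee z d i) (ee ζ δ i) := fun i =>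
    rs_neg v (rs_mul v (rs_pow v hζ _) hδ)
  -- the units
  choose b hb using he
  have hb0 : ∀ i, b i ≠ 0 := by
    intro i h0
    have h5 := hb i
    rw [h0, map_zero, zero_pow two_ne_zero] at h5
    exact ha i ((Valuation.zero_iff _).1 h5)
  have hu1 : ∀ i, v.valuation N (a i / b i ^ 2) = 1 := by
    intro i
    rw [map_div₀, map_pow, hb i]
    exact div_self (pow_ne_zero _ ((Valuation.ne_zero_iff _).2 (hb0 i)))
  choose u hu using fun i => exists_rs v (hu1 i).le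
  have hu0 : ∀ i, u i ≠ 0 := fun i => (rs_zero_iff v (hu i)).1 (hu1 i)
  have hus : IsSquare (u 0 * u 1 * u 2) := by
    obtain ⟨w, hw⟩ := hp
    have e : a 0 / b 0 ^ 2 * (a 1 / b 1 ^ 2) * (a 2 / b 2 ^ 2) =
        (w / (b 0 * b 1 * b 2)) * (w / (b 0 * b 1 * b 2)) := by
      have h6 := hb0 0
      have h7 := hb0 1
      have h8 := hb0 2
      field_simp
      linear_combination hw
    have h5 := rs_mul v (rs_mul v (hu 0) (hu 1)) (hu 2)
    have hw1 : v.valuation N (w / (b 0 * b 1 * b 2)) = 1 := by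
      have h6 : v.valuation N (w / (b 0 * b 1 * b 2)) ^ 2 = 1 := by
        rw [sq, ← map_mul, ← e, map_mul, map_mul, hu1, hu1, hu1, one_mul, one_mul]
      exact (pow_eq_one_iff_of_nonneg zero_le (by norm_num)).1 h6
    obtain ⟨s, hs⟩ := exists_rs v hw1.le
    rw [e] at h5
    exact ⟨s, rs_unique v h5 (rs_mul v hs hs)⟩
  rcases loc_finite hr2 hr3 hδ0 hζ1 u hu0 hus with h5 | ⟨j, h5⟩ | ⟨x, h5, h6, h7⟩
  · exact Or.inl fun i => sq_mul (hb0 i) (sq_of_rs v h4 (hu i) (hu0 i) (h5 i))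
  · refine Or.inr (Or.inl ⟨j, fun i hij => ?_⟩)
    obtain ⟨h6, h7⟩ := h5 i hij
    refine sq_mul (hb0 i) ?_
    have h8 := rs_mul v (hu i) (rs_sub v (hee j) (hee i))
    have e : a i * (ee z d j - ee z d i) / b i ^ 2 =
        a i / b i ^ 2 * (ee z d j - ee z d i) := by ring
    rw [e]
    exact sq_of_rs v h4 h8 (mul_ne_zero (hu0 i) h6) h7
  · obtain ⟨X, hX⟩ := rs_surj v x
    refine Or.inr (Or.inr ⟨X, ?_, fun i => ?_⟩)
    · exact sq_of_rs v h4 (rs_add v (rs_pow v hX 3) (rs_pow v hδ 3)) h5 h6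
    · obtain ⟨h8, h9⟩ := h7 i
      refine sq_mul (hb0 i) ?_
      have h10 := rs_mul v (hu i) (rs_sub v hX (hee i))
      have e : a i * (X - ee z d i) / b i ^ 2 = a i / b i ^ 2 * (X - ee z d i) := by ring
      rw [e]
      exact sq_of_rs v h4 h10 (mul_ne_zero (hu0 i) h8) h9

end

end Pool.Agent.Lib.MP_1a91b9_ntS.C
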