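import Pool.Agent.Lib.MP_1a91b9_ntS.C.Fin
import Pool.Agent.Lib.MP_1a91b9_ntS.C.GoodV

/-!
# MP_1a91b9_nt, converse of the descent: the two theorems without hypothesis
-/

set_option autoImplicit false

namespace Pool.Agent.Lib.MP_1a91b9_ntS.C

open WeierstrassCurve NumberField Finset WithZero IsDedekindDomain Pool.Agent.Lib.MP_1a91b9_ntT
open Pool.Agent.Lib.MP_1a91b9_ntH (F4 wO s3 Pq qd om_quad)
open Pool.Agent.Lib.MP_1a91b9_ntH.C (GLoc ee Sq cv)
open Pool.Agent.Lib.MP_1a91b9_ntH2 (dlc tw)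
open Pool.Agent.Lib.MP_1a91b9_ntE
open Pool.Agent.Lib.MP_1a91b9_ntE.C
open Pool.Agent.Lib.MP_1a91b9_ntT3.S9 (ShaP)
open scoped Classical

noncomputable section

theorem goodV : GoodV := by
  intro v D x h2 h3 hd hx hp
  refine gloc_good v h2 h3 hd om_quad (fun i => (x i : K)) (fun i h => ?_) (fun i => ⟨1, ?_⟩) hp
  · have h4 := hx i
    rw [h, map_zero] at h4
    exact zero_ne_one h4
  · rw [hx i, map_one, one_pow]

/-- **The converse**, odd twists. -/
theorem conv_o (c : F4) (S : Finset Pq) (h : ((tw c qd).M S).det = 0)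
    {W : WeierstrassCurve K} (hW : W = cv ((dlc c S : 𝓞 K) : K)) (hfin : Finite W.toAffine.Point) :
    Nat.card (ShaP 2 W) ≠ 1 := conv_odd goodV c S h hW hfin

/-- **The converse**, even twists. -/
theorem conv_e (c : F4) (S : Finset Pq) (h : (qE.NE c S).det = 0)
    {W : WeierstrassCurve K} (hW : W = cv ((dle c S : 𝓞 K) : K)) (hfin : Finite W.toAffine.Point) :
    Nat.card (ShaP 2 W) ≠ 1 := conv_even goodV c S h hW hfin

end

end Pool.Agent.Lib.MP_1a91b9_ntS.C
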