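import Pool.Agent.Lib.MP_1a91b9_ntH.C.LocDefs
import Mathlib.NumberTheory.LegendreSymbol.QuadraticChar.Basic

/-!
# MP_1a91b9_nt, converse of the descent: the curve `y² = x³ + d³` over a finite field

Every triple with square product is the class of a point.
-/

set_option autoImplicit false

namespace Pool.Agent.Lib.MP_1a91b9_ntS.C

open WeierstrassCurve
open Pool.Agent.Lib.MP_1a91b9_ntH.C
open scoped Classical

section FF

variable {F : Type*} [Field F]

private theorem nons_gen (h2 : (2 : F) ≠ 0) (h3 : (3 : F) ≠ 0) {d : F} (hd : d ≠ 0)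
    {W : Affine F} (hW : W = cv d) (x y : F) : W.Nonsingular x y ↔ y ^ 2 = x ^ 3 + d ^ 3 := by
  rw [Affine.nonsingular_iff, eqn_iff hW]
  subst hW
  simp only [and_iff_left_iff_imp]
  intro h
  by_contra hc
  push Not at hc
  obtain ⟨h1, h4⟩ := hc
  have hx : x = 0 := by
    have h5 : 3 * x ^ 2 = 0 := by simpa [cv] using h1.symm
    rcases mul_eq_zero.1 h5 with h6 | h6
    · exact absurd h6 h3
    · exact pow_eq_zero_iff (two_ne_zero) |>.1 h6
  have hy : y = 0 := by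
    have h2' : y = -y := by simpa [cv] using h4
    have h5 : 2 * y = 0 := by linear_combination h2'
    rcases mul_eq_zero.1 h5 with h6 | h6
    · exact absurd h6 h2
    · exact h6
  rw [hx, hy] at h
  apply hd
  have h5 : d ^ 3 = 0 := by linear_combination -h
  exact pow_eq_zero_iff (three_ne_zero) |>.1 h5

private theorem half_gen (h2 : (2 : F) ≠ 0) (h3 : (3 : F) ≠ 0) {d : F} (hd : d ≠ 0)
    {W : Affine F} (hW : W = cv d) {x₀ y₀ : F} (h : W.Nonsingular x₀ y₀) (l : F)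
    (hl : l ^ 4 - 6 * x₀ * l ^ 2 - 8 * y₀ * l - 3 * x₀ ^ 2 = 0) :
    ∃ P : W.Point, P + P = Affine.Point.some x₀ y₀ h := by
  have a1 : W.a₁ = 0 := by rw [hW, cv]
  have a2 : W.a₂ = 0 := by rw [hW, cv]
  have a3 : W.a₃ = 0 := by rw [hW, cv]
  have a4 : W.a₄ = 0 := by rw [hW, cv]
  have a6 : W.a₆ = d ^ 3 := by rw [hW, cv]
  have h4 : (4 : F) ≠ 0 := by
    have e : (4 : F) = 2 * 2 := by norm_num
    rw [e]
    exact mul_ne_zero h2 h2
  have he : y₀ ^ 2 = x₀ ^ 3 + d ^ 3 := by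
    have h1 := h.1
    rw [Affine.equation_iff, a1, a2, a3, a4, a6] at h1
    linear_combination h1
  obtain ⟨X, hX⟩ : ∃ X : F, X = (l ^ 2 - x₀) / 2 := ⟨_, rfl⟩
  obtain ⟨Y, hY⟩ : ∃ Y : F, Y = l * ((l ^ 2 - 3 * x₀) / 2) - y₀ := ⟨_, rfl⟩
  have hX' : 2 * X = l ^ 2 - x₀ := by rw [hX]; field_simp
  have hY' : 2 * Y = l ^ 3 - 3 * x₀ * l - 2 * y₀ := by
    rw [hY]; field_simp
  have e1 : Y ^ 2 = X ^ 3 + d ^ 3 := by
    have h8 : (8 : F) ≠ 0 := by
      have e : (8 : F) = 2 * 4 := by norm_num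
      rw [e]
      exact mul_ne_zero h2 h4
    have key : 8 * Y ^ 2 = 8 * (X ^ 3 + d ^ 3) := by
      have hx3 : 8 * X ^ 3 = (l ^ 2 - x₀) ^ 3 := by
        rw [← hX']; ring
      have hy2 : 8 * Y ^ 2 = 2 * (l ^ 3 - 3 * x₀ * l - 2 * y₀) ^ 2 := by
        rw [← hY']; ring
      rw [mul_add, hx3, hy2]
      linear_combination (l ^ 2 - 3 * x₀) * hl + 8 * he
    exact mul_left_cancel₀ h8 key
  have e2 : 3 * X ^ 2 = l * (2 * Y) := by
    have key : 4 * (3 * X ^ 2) = 4 * (l * (2 * Y)) := by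
      have hx2 : 4 * (3 * X ^ 2) = 3 * (l ^ 2 - x₀) ^ 2 := by
        rw [← hX']; ring
      rw [hx2, hY']
      linear_combination (-1) * hl
    exact mul_left_cancel₀ h4 key
  have e3 : 2 * Y ≠ 0 := by
    intro h0
    have hX0 : X = 0 := by
      have : 3 * X ^ 2 = 0 := by rw [e2, h0, mul_zero]
      rcases mul_eq_zero.1 this with h' | h'
      · exact absurd h' h3
      · exact pow_eq_zero_iff (two_ne_zero) |>.1 h'
    have h5 : (2 * Y) ^ 2 = 4 * (X ^ 3 + d ^ 3) := by linear_combination 4 * e1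
    rw [h0, hX0] at h5
    have h6 : 4 * d ^ 3 = 0 := by linear_combination (-1) * h5
    rcases mul_eq_zero.1 h6 with h' | h'
    · exact h4 h'
    · exact hd (pow_eq_zero_iff (three_ne_zero) |>.1 h')
  have hne : Y ≠ -Y - (0 : F) * X - 0 := by
    intro h0
    apply e3
    linear_combination h0
  have hns : W.Nonsingular X Y := by
    rw [Affine.nonsingular_iff]
    refine ⟨?_, Or.inr ?_⟩
    · rw [Affine.equation_iff, a1, a2, a3, a4, a6]
      linear_combination e1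
    · rw [a1, a3]
      exact hne
  have hneg : Y ≠ W.negY X Y := by
    rw [Affine.negY, a1, a3]
    exact hne
  have hsl : W.slope X X Y Y = l := by
    rw [Affine.slope_of_Y_ne rfl hneg]
    simp only [Affine.negY]
    rw [a1, a2, a3, a4]
    have hden : Y - (-Y - 0 * X - 0) = 2 * Y := by ring
    rw [hden, div_eq_iff e3]
    linear_combination e2
  refine ⟨Affine.Point.some X Y hns, ?_⟩
  rw [Affine.Point.add_self_of_Y_ne hneg]
  have hx : W.addX X X (W.slope X X Y Y) = x₀ := by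
    rw [hsl, Affine.addX, a1, a2]
    linear_combination (-1) * hX'
  have hy : W.addY X X Y (W.slope X X Y Y) = y₀ := by
    rw [Affine.addY, Affine.negAddY, hx, Affine.negY, hsl, a1, a3]
    have : 2 * (-(l * (x₀ - X) + Y) - 0 * x₀ - 0) = 2 * y₀ := by
      linear_combination l * hX' - hY'
    exact mul_left_cancel₀ h2 this
  simp only [Affine.Point.some.injEq]
  exact ⟨hx, hy⟩

private theorem ee_zero (z d : F) : ee z d 0 = -d := by
  rw [ee]
  simp

private theorem ee_one (z d : F) : ee z d 1 = -(z * d) := by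
  rw [ee]
  simp

private theorem ee_two (z d : F) : ee z d 2 = -(z ^ 2 * d) := by
  rw [ee]
  simp

theorem ee_prod {z d : F} (hz : z ^ 2 + z + 1 = 0) (x : F) :
    (x - ee z d 0) * (x - ee z d 1) * (x - ee z d 2) = x ^ 3 + d ^ 3 := by
  rw [ee_zero, ee_one, ee_two]
  linear_combination (x ^ 2 * d + x * d ^ 2 * z + d ^ 3 * (z - 1)) * hz

/-- a point such that all `x - e i` are squares is the double of a point -/
private theorem half_sq (h2 : (2 : F) ≠ 0) (h3 : (3 : F) ≠ 0) {d z : F} (hd : d ≠ 0)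
    (hz : z ^ 2 + z + 1 = 0) {W : Affine F} (hW : W = cv d) {x₀ y₀ : F}
    (h : W.Nonsingular x₀ y₀) (hs : ∀ i, IsSquare (x₀ - ee z d i)) :
    ∃ P : W.Point, P + P = Affine.Point.some x₀ y₀ h := by
  have he : y₀ ^ 2 = x₀ ^ 3 + d ^ 3 := (nons_gen h2 h3 hd hW x₀ y₀).1 h
  obtain ⟨r0, k0⟩ := hs 0
  obtain ⟨r1, k1⟩ := hs 1
  obtain ⟨r2, k2⟩ := hs 2
  have hp := ee_prod (d := d) hz x₀
  rw [k0, k1, k2, ← he] at hp
  have hy : y₀ = r0 * r1 * r2 ∨ y₀ = -(r0 * r1 * r2) := by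
    refine sq_eq_sq_iff_eq_or_eq_neg.1 ?_
    linear_combination -hp
  rw [ee_zero] at k0
  rw [ee_one] at k1
  rw [ee_two] at k2
  have key : ∀ r : F, r * r = r0 * r0 → y₀ = r * r1 * r2 →
      ∃ P : W.Point, P + P = Affine.Point.some x₀ y₀ h := by
    intro r hr hy
    refine half_gen h2 h3 hd hW h (r + r1 + r2) ?_
    have s1 : r ^ 2 + r1 ^ 2 + r2 ^ 2 = 3 * x₀ := by
      linear_combination hr - k0 - k1 - k2 + d * hz
    have s2 : r ^ 2 * r1 ^ 2 + r ^ 2 * r2 ^ 2 + r1 ^ 2 * r2 ^ 2 = 3 * x₀ ^ 2 := by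
      have t0 : r ^ 2 = x₀ + d := by linear_combination hr - k0
      have t1 : r1 ^ 2 = x₀ + z * d := by linear_combination -k1
      have t2 : r2 ^ 2 = x₀ + z ^ 2 * d := by linear_combination -k2
      rw [t0, t1, t2]
      linear_combination (2 * x₀ * d + d ^ 2 * z) * hz
    linear_combination ((r + r1 + r2) ^ 2 - 3 * x₀ + 2 * (r * r1 + r * r2 + r1 * r2)) * s1 +
      4 * s2 - 8 * (r + r1 + r2) * hy
  rcases hy with hy | hy
  · exact key r0 rfl hy
  · exact key (-r0) (by ring) (by rw [hy]; ring)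

private theorem finite_point [Finite F] (W : Affine F) : Finite W.Point := by
  let f : W.Point → Option (F × F) := fun P => match P with
    | .zero => none
    | .some x y _ => Option.some (x, y)
  refine Finite.of_injective f ?_
  rintro (_ | ⟨x, y, h⟩) (_ | ⟨x', y', h'⟩) hh
  · rfl
  · exact absurd hh (by simp [f])
  · exact absurd hh (by simp [f])
  · have h1 : (x, y) = (x', y') := Option.some_injective _ hh
    rw [Prod.mk.injEq] at h1
    obtain ⟨h2, h3⟩ := h1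
    subst h2
    subst h3
    rfl

private theorem exists_not_double [Finite F] (h2 : (2 : F) ≠ 0) (h3 : (3 : F) ≠ 0) {d : F}
    (hd : d ≠ 0) {W : Affine F} (hW : W = cv d) : ∃ P : W.Point, ∀ Q : W.Point, Q + Q ≠ P := by
  by_contra hcon
  push Not at hcon
  have hfin : Finite W.Point := finite_point W
  have hs : Function.Surjective fun Q : W.Point => Q + Q := hcon
  have hi := Finite.injective_iff_surjective.2 hs
  have a1 : W.a₁ = 0 := by rw [hW, cv]
  have a3 : W.a₃ = 0 := by rw [hW, cv]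
  have hT : W.Nonsingular (-d) 0 := (nons_gen h2 h3 hd hW _ _).2 (by ring)
  have h5 : Affine.Point.some (-d) 0 hT + Affine.Point.some (-d) 0 hT = (0 : W.Point) := by
    refine Affine.Point.add_of_Y_eq rfl ?_
    rw [Affine.negY, a1, a3]
    ring
  have h6 : (0 : W.Point) + 0 = 0 := add_zero 0
  have h7 := hi (h5.trans h6.symm : (fun Q : W.Point => Q + Q) (Affine.Point.some (-d) 0 hT) =
    (fun Q : W.Point => Q + Q) 0)
  exact Affine.Point.some_ne_zero hT h7

theorem sq_mul_iff [Finite F] {a b : F} (ha : a ≠ 0) (hb : b ≠ 0) :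
    IsSquare (a * b) ↔ (IsSquare a ↔ IsSquare b) := by
  have := Fintype.ofFinite F
  rw [← quadraticChar_one_iff_isSquare (mul_ne_zero ha hb), ← quadraticChar_one_iff_isSquare ha,
    ← quadraticChar_one_iff_isSquare hb, map_mul]
  rcases quadraticChar_dichotomy ha with h | h <;> rcases quadraticChar_dichotomy hb with h' | h' <;>
    simp [h, h']

private theorem ee_succ {z d : F} (hz : z ^ 2 + z + 1 = 0) (i : Fin 3) :
    ee z d (i + 1) = z * ee z d i := by
  have h3 : z ^ 3 = 1 := by linear_combination (z - 1) * hz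
  fin_cases i
  · show ee z d 1 = z * ee z d 0
    rw [ee_zero, ee_one]
    ring
  · show ee z d 2 = z * ee z d 1
    rw [ee_two, ee_one]
    ring
  · show ee z d 0 = z * ee z d 2
    rw [ee_zero, ee_two]
    linear_combination d * h3

private theorem sq_z {z : F} (hz : z ^ 2 + z + 1 = 0) (t : F) : IsSquare (z * t) ↔ IsSquare t := by
  have h3 : z ^ 3 = 1 := by linear_combination (z - 1) * hz
  constructor
  · rintro ⟨r, hr⟩
    exact ⟨z * r, by linear_combination z ^ 2 * hr - t * h3⟩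
  · rintro ⟨r, hr⟩
    exact ⟨z ^ 2 * r, by linear_combination z * hr - z * r * r * h3⟩

/-- there is a point whose class is a square exactly at `i₀` -/
private def QX (z d : F) (i₀ : Fin 3) : Prop :=
  ∃ x, x ^ 3 + d ^ 3 ≠ 0 ∧ IsSquare (x ^ 3 + d ^ 3) ∧ ∀ i, (IsSquare (x - ee z d i) ↔ i = i₀)

/-- there is a point of order two whose class is a square exactly at `i₀` -/
private def QT (z d : F) (i₀ : Fin 3) : Prop :=
  ∃ j, ∀ i, i ≠ j → (IsSquare (ee z d j - ee z d i) ↔ i = i₀)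

private theorem QX_succ {z d : F} (hz : z ^ 2 + z + 1 = 0) {i₀ : Fin 3} (h : QX z d i₀) :
    QX z d (i₀ + 1) := by
  have h3 : z ^ 3 = 1 := by linear_combination (z - 1) * hz
  obtain ⟨x, h1, h2, h4⟩ := h
  have e : (z * x) ^ 3 + d ^ 3 = x ^ 3 + d ^ 3 := by linear_combination x ^ 3 * h3
  refine ⟨z * x, by rwa [e], by rwa [e], fun i => ?_⟩
  have hi : i = (i - 1) + 1 := by
    revert i
    decide
  have e2 : z * x - ee z d i = z * (x - ee z d (i - 1)) := by
    conv_lhs => rw [hi, ee_succ hz]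
    ring
  rw [e2, sq_z hz, h4]
  clear h4 e2 hi
  revert i i₀
  decide

private theorem QT_succ {z d : F} (hz : z ^ 2 + z + 1 = 0) {i₀ : Fin 3} (h : QT z d i₀) :
    QT z d (i₀ + 1) := by
  obtain ⟨j, hj⟩ := h
  refine ⟨j + 1, fun i hij => ?_⟩
  have hi : i = (i - 1) + 1 := by
    clear hij
    revert i
    decide
  have e2 : ee z d (j + 1) - ee z d i = z * (ee z d j - ee z d (i - 1)) := by
    conv_lhs => rw [hi, ee_succ hz, ee_succ hz]
    ring
  have hne : i - 1 ≠ j := fun h5 => hij (by rw [← h5]; exact hi)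
  rw [e2, sq_z hz, hj _ hne]
  clear hne e2 hi hj hij
  revert i i₀
  decide

private theorem ee_ne (h3 : (3 : F) ≠ 0) {z d : F} (hd : d ≠ 0) (hz : z ^ 2 + z + 1 = 0)
    {i j : Fin 3} (hij : i ≠ j) : ee z d i ≠ ee z d j := by
  have hz0 : z ≠ 0 := by
    intro h
    rw [h] at hz
    simp at hz
  have hz1 : z ≠ 1 := by
    intro h
    rw [h] at hz
    apply h3
    linear_combination hz
  have h3' : z ^ 3 = 1 := by linear_combination (z - 1) * hz
  have h01 : ee z d 0 ≠ ee z d 1 := by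
    rw [ee_zero, ee_one]
    intro h
    apply hz1
    have h4 : (z - 1) * d = 0 := by linear_combination h
    rcases mul_eq_zero.1 h4 with h5 | h5
    · exact sub_eq_zero.1 h5
    · exact absurd h5 hd
  have h12 : ee z d 1 ≠ ee z d 2 := by
    have e1 : ee z d 1 = z * ee z d 0 := ee_succ hz 0
    have e2 : ee z d 2 = z * ee z d 1 := ee_succ hz 1
    rw [e2]
    intro h
    rw [e1] at h
    exact h01 (by rw [e1]; exact mul_left_cancel₀ hz0 h)
  have h20 : ee z d 2 ≠ ee z d 0 := by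
    have e1 : ee z d 2 = z * ee z d 1 := ee_succ hz 1
    have e2 : ee z d 0 = z * ee z d 2 := ee_succ hz 2
    intro h
    rw [e2, e1] at h
    exact h12 (by rw [e1]; exact mul_left_cancel₀ hz0 h)
  fin_cases i <;> fin_cases j
  · exact absurd rfl hij
  · exact h01
  · exact h20.symm
  · exact h01.symm
  · exact absurd rfl hij
  · exact h12
  · exact h20
  · exact h12.symm
  · exact absurd rfl hij

private theorem par3 {p : Fin 3 → Prop} (hp : (p 0 ↔ (p 1 ↔ p 2))) (hn : ¬ ∀ i, p i) :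
    ∃ i₀, ∀ i, p i ↔ i = i₀ := by
  by_cases h0 : p 0 <;> by_cases h1 : p 1 <;> by_cases h2 : p 2
  · refine absurd (fun i => ?_) hn
    fin_cases i <;> assumption
  · tauto
  · tauto
  · exact ⟨0, fun i => by fin_cases i <;> simp [h0, h1, h2]⟩
  · tauto
  · exact ⟨1, fun i => by fin_cases i <;> simp [h0, h1, h2]⟩
  · exact ⟨2, fun i => by fin_cases i <;> simp [h0, h1, h2]⟩
  · tauto

private theorem third : ∀ i j : Fin 3, i ≠ j →
    ∃ i' : Fin 3, i' ≠ i ∧ i' ≠ j ∧ ∀ k, k = i ∨ k = j ∨ k = i' := by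
  decide

private theorem exists_Q [Finite F] (h2 : (2 : F) ≠ 0) (h3 : (3 : F) ≠ 0) {z d : F} (hd : d ≠ 0)
    (hz : z ^ 2 + z + 1 = 0) : ∃ i₀, QX z d i₀ ∨ QT z d i₀ := by
  obtain ⟨P, hP⟩ := exists_not_double h2 h3 hd (W := cv d) rfl
  rcases P with _ | ⟨x₀, y₀, h⟩
  · exact absurd (add_zero (0 : Affine.Point (cv d))) (hP 0)
  have hns : ¬ ∀ i, IsSquare (x₀ - ee z d i) := by
    intro hs
    obtain ⟨Q, hQ⟩ := half_sq h2 h3 hd hz rfl h hs
    exact hP Q hQ
  clear hP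
  have he : y₀ ^ 2 = x₀ ^ 3 + d ^ 3 := (nons_gen h2 h3 hd rfl x₀ y₀).1 h
  by_cases hy : x₀ ^ 3 + d ^ 3 = 0
  · -- a point of order two
    rw [← ee_prod (d := d) hz x₀] at hy
    have hj : ∃ j, x₀ = ee z d j := by
      rcases mul_eq_zero.1 hy with h1 | h1
      · rcases mul_eq_zero.1 h1 with h4 | h4
        · exact ⟨0, sub_eq_zero.1 h4⟩
        · exact ⟨1, sub_eq_zero.1 h4⟩
      · exact ⟨2, sub_eq_zero.1 h1⟩
    obtain ⟨j, hj⟩ := hj
    rw [hj] at hns
    push Not at hns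
    obtain ⟨i, hi⟩ := hns
    have hij : i ≠ j := by
      rintro rfl
      apply hi
      rw [sub_self]
      exact ⟨0, by ring⟩
    -- the third index
    obtain ⟨i', hi', hij', hall⟩ := third i j hij
    by_cases hsq : IsSquare (ee z d j - ee z d i')
    · refine ⟨i', Or.inr ⟨j, fun k hk => ?_⟩⟩
      rcases hall k with rfl | rfl | rfl
      · exact ⟨fun h5 => absurd h5 hi, fun h5 => absurd h5.symm hi'⟩
      · exact absurd rfl hk
      · exact ⟨fun _ => rfl, fun _ => hsq⟩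
    · refine ⟨j, Or.inr ⟨j, fun k hk => ?_⟩⟩
      rcases hall k with rfl | rfl | rfl
      · exact ⟨fun h5 => absurd h5 hi, fun h5 => absurd h5 hk⟩
      · exact absurd rfl hk
      · exact ⟨fun h5 => absurd h5 hsq, fun h5 => absurd h5 hk⟩
  · have hp := ee_prod (d := d) hz x₀
    have hn0 : x₀ - ee z d 0 ≠ 0 := fun h0 => hy (by rw [← hp, h0]; ring)
    have hn1 : x₀ - ee z d 1 ≠ 0 := fun h0 => hy (by rw [← hp, h0]; ring)
    have hn2 : x₀ - ee z d 2 ≠ 0 := fun h0 => hy (by rw [← hp, h0]; ring)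
    have hsq : IsSquare ((x₀ - ee z d 0) * (x₀ - ee z d 1) * (x₀ - ee z d 2)) := by
      rw [hp, ← he]
      exact ⟨y₀, sq y₀⟩
    have hpar : (IsSquare (x₀ - ee z d 0) ↔ (IsSquare (x₀ - ee z d 1) ↔
        IsSquare (x₀ - ee z d 2))) := by
      have h5 := (sq_mul_iff (mul_ne_zero hn0 hn1) hn2).1 hsq
      rw [sq_mul_iff hn0 hn1] at h5
      tauto
    obtain ⟨i₀, hi₀⟩ := par3 (p := fun i => IsSquare (x₀ - ee z d i)) hpar hns
    refine ⟨i₀, Or.inl ⟨x₀, hy, ?_, hi₀⟩⟩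
    rw [← he]
    exact ⟨y₀, sq y₀⟩

private theorem all_Q [Finite F] (h2 : (2 : F) ≠ 0) (h3 : (3 : F) ≠ 0) {z d : F} (hd : d ≠ 0)
    (hz : z ^ 2 + z + 1 = 0) (i : Fin 3) : QX z d i ∨ QT z d i := by
  obtain ⟨i₀, h⟩ := exists_Q h2 h3 hd hz
  have hstep : ∀ i, (QX z d i ∨ QT z d i) → (QX z d (i + 1) ∨ QT z d (i + 1)) := by
    rintro i (h | h)
    · exact Or.inl (QX_succ hz h)
    · exact Or.inr (QT_succ hz h)
  have h4 : ∀ i₀ i : Fin 3, i = i₀ ∨ i = i₀ + 1 ∨ i = i₀ + 1 + 1 := by decide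
  rcases h4 i₀ i with h5 | h5 | h5
  · rw [h5]; exact h
  · rw [h5]; exact hstep _ h
  · rw [h5]; exact hstep _ (hstep _ h)

/-- Over a finite field every triple with square product is the class of a point. -/
theorem loc_finite [Finite F] (h2 : (2 : F) ≠ 0) (h3 : (3 : F) ≠ 0) {z d : F} (hd : d ≠ 0)
    (hz : z ^ 2 + z + 1 = 0) (u : Fin 3 → F) (hu : ∀ i, u i ≠ 0)
    (hp : IsSquare (u 0 * u 1 * u 2)) :
    (∀ i, IsSquare (u i)) ∨
      (∃ j, ∀ i, i ≠ j → ee z d j - ee z d i ≠ 0 ∧ IsSquare (u i * (ee z d j - ee z d i))) ∨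
      ∃ x, x ^ 3 + d ^ 3 ≠ 0 ∧ IsSquare (x ^ 3 + d ^ 3) ∧
        ∀ i, x - ee z d i ≠ 0 ∧ IsSquare (u i * (x - ee z d i)) := by
  by_cases hall : ∀ i, IsSquare (u i)
  · exact Or.inl hall
  have hpar : (IsSquare (u 0) ↔ (IsSquare (u 1) ↔ IsSquare (u 2))) := by
    have h5 := (sq_mul_iff (mul_ne_zero (hu 0) (hu 1)) (hu 2)).1 hp
    rw [sq_mul_iff (hu 0) (hu 1)] at h5
    tauto
  obtain ⟨i₀, hi₀⟩ := par3 (p := fun i => IsSquare (u i)) hpar hall
  rcases all_Q h2 h3 hd hz i₀ with ⟨x, h4, h5, h6⟩ | ⟨j, hj⟩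
  · refine Or.inr (Or.inr ⟨x, h4, h5, fun i => ?_⟩)
    have hne : x - ee z d i ≠ 0 := by
      intro h0
      apply h4
      have h7 : x = ee z d i := sub_eq_zero.1 h0
      rw [h7, ee_cube hz]
      ring
    exact ⟨hne, (sq_mul_iff (hu i) hne).2 ((hi₀ i).trans (h6 i).symm)⟩
  · refine Or.inr (Or.inl ⟨j, fun i hij => ?_⟩)
    have hne : ee z d j - ee z d i ≠ 0 := sub_ne_zero.2 (ee_ne h3 hd hz hij.symm)
    exact ⟨hne, (sq_mul_iff (hu i) hne).2 ((hi₀ i).trans (hj i hij).symm)⟩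

end FF

end Pool.Agent.Lib.MP_1a91b9_ntS.C
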