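import Pool.Agent.Lib.MP_1a91b9_ntT.S9.QD
import Pool.Agent.Lib.MP_1a91b9_ntH.C.LocDefs

/-!
# MP_1a91b9_nt, converse of the descent: an element which is a square up to a factor `1` modulo more than
`4` is a square in the completion
-/

set_option autoImplicit false

namespace Pool.Agent.Lib.MP_1a91b9_ntS.C

open WithZero NumberField IsDedekindDomain
open Pool.Agent.Lib.MP_1a91b9_ntH.C
open scoped Classical

theorem isSquare_of_Sq {N : Type*} [Field N] [NumberField N] (v : HeightOneSpectrum (𝓞 N)) (u : N)
    (h : Sq (v.valuation N) u) : IsSquare (algebraMap N (v.adicCompletion N) u) := by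
  obtain ⟨b, hb, h⟩ := h
  have : CharZero (v.adicCompletion N) :=
    charZero_of_injective_algebraMap (algebraMap N (v.adicCompletion N)).injective
  have hval : ∀ x : N, Valued.v (algebraMap N (v.adicCompletion N) x) = v.valuation N x :=
    fun x => HeightOneSpectrum.valuedAdicCompletion_eq_valuation' v x
  have h4 : (4 : N) ≠ 0 := by norm_num
  set t : v.adicCompletion N := algebraMap N (v.adicCompletion N) ((u / b ^ 2 - 1) / 4) with ht
  have ht1 : Valued.v t < 1 := by
    rw [ht, hval, map_div₀]
    have h40 : v.valuation N 4 ≠ 0 := (Valuation.ne_zero_iff _).2 h4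
    exact (div_lt_one₀ (zero_lt_iff.2 h40)).2 h
  obtain ⟨s, _, hs⟩ := Pool.Agent.Lib.MP_1a91b9_ntT.S9.hensel_small v (-t) 1 1 0 0
    (by rw [Valuation.map_neg]; exact ht1) (map_one _) (by rw [map_one]) (by rw [map_zero]; exact zero_le)
    (by rw [map_zero]; exact zero_le)
  refine ⟨algebraMap N (v.adicCompletion N) b * (1 + 2 * s), ?_⟩
  have e : algebraMap N (v.adicCompletion N) u =
      algebraMap N (v.adicCompletion N) b ^ 2 * (1 + 4 * t) := by
    have h5 : u = b ^ 2 * (1 + 4 * ((u / b ^ 2 - 1) / 4)) := by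
      field_simp
      ring
    rw [ht]
    conv_lhs => rw [h5]
    simp only [map_mul, map_add, map_one, map_pow, map_ofNat]
  rw [e]
  linear_combination (-4 * algebraMap N (v.adicCompletion N) b ^ 2) * hs

end Pool.Agent.Lib.MP_1a91b9_ntS.C
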