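import Pool.Agent.Lib.MP_1a91b9_ntH.C.Fin
import Pool.Agent.Lib.MP_1a91b9_ntH.C.SfSq

/-!
# MP_1a91b9_nt: the 2-primary part of the group of points of `y² = x³ + d³` has four elements
-/

set_option autoImplicit false

namespace Pool.Agent.Lib.MP_1a91b9_ntS.C

open WeierstrassCurve NumberField
open Pool.Agent.Lib.MP_1a91b9_ntH.C
open scoped Classical

/-- an abelian group without elements of order four and with four elements of order one or two -/
theorem card_primary {A : Type*} [AddCommGroup A] (h4 : ∀ x : A, 4 • x = 0 → 2 • x = 0)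
    {n : ℕ} (hn : Nat.card {x : A // x + x = 0} = n) :
    Nat.card (AddCommGroup.primaryComponent A 2) = n := by
  rw [← hn]
  refine Nat.card_congr (Equiv.subtypeEquivRight fun x => ?_)
  have key : ∀ j : ℕ, ∀ x : A, 2 ^ j • x = 0 → 2 • x = 0 := by
    intro j
    induction j with
    | zero =>
      intro x hx
      rw [pow_zero, one_smul] at hx
      rw [hx, smul_zero]
    | succ j ih =>
      intro x hx
      have h1 : 2 ^ j • (2 • x) = 0 := by rw [smul_smul, ← pow_succ, hx]
      have h2 := ih _ h1
      rw [smul_smul] at h2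
      exact h4 x h2
  constructor
  · rintro ⟨j, hj⟩
    rw [← two_smul ℕ]
    exact key j x hj
  · intro h
    refine ⟨1, ?_⟩
    rw [pow_one, two_smul]
    exact h

variable {N : Type*} [Field N] [NumberField N] {d : N} {W : Affine N}

theorem no_four (hd : d ≠ 0) (hW : W = cv d) {z : N} (hz : z ^ 2 + z + 1 = 0)
    (hm : ¬ IsSquare (-1 : N)) (x : W.Point) (h : 4 • x = 0) : 2 • x = 0 := by
  by_contra hne
  rw [two_smul] at hne
  have h4 : (x + x) + (x + x) = 0 := by
    rw [← h]
    abel
  rcases (two_zero_iff hd hW hz (x + x)).1 h4 with h0 | ⟨j, hj⟩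
  · exact hne h0
  · have hkey : ∀ i, sfn (ee z d i) x ^ 2 = ee z d j - ee z d i := by
      intro i
      exact sfn_sq hd hW _ (ee_cube hz i) x _ hj
    have hz0 : z ≠ 0 := by
      rintro rfl
      norm_num at hz
    have hz3 : z ^ 3 = 1 := by linear_combination (z - 1) * hz
    have hz1 : z ≠ 1 := by
      rintro rfl
      norm_num at hz
    apply hm
    set s := fun i : Fin 3 => sfn (ee z d i) x with hs
    have k0 : s 0 ^ 2 = ee z d j - ee z d 0 := hkey 0
    have k1 : s 1 ^ 2 = ee z d j - ee z d 1 := hkey 1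
    have k2 : s 2 ^ 2 = ee z d j - ee z d 2 := hkey 2
    have e0 : ee z d 0 = -d := by simp [ee]
    have e1 : ee z d 1 = -(z * d) := by simp [ee]
    have e2 : ee z d 2 = -(z ^ 2 * d) := by simp [ee]
    rw [e0] at k0
    rw [e1] at k1
    rw [e2] at k2
    have hzd : (1 - z) * d ≠ 0 := mul_ne_zero (sub_ne_zero.2 hz1.symm) hd
    fin_cases j
    · simp only [Fin.zero_eta, e0] at k1 k2
      have hs1 : s 1 ≠ 0 := by
        intro h0
        rw [h0] at k1
        apply hzd
        linear_combination k1
      refine ⟨z ^ 2 * s 2 / s 1, ?_⟩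
      rw [div_mul_div_comm, eq_div_iff (mul_ne_zero hs1 hs1)]
      linear_combination -k1 - z ^ 4 * k2 - d * (z ^ 3 + 1 - z) * hz3
    · simp only [Fin.mk_one, e1] at k0 k2
      have hs0 : s 0 ≠ 0 := by
        intro h0
        rw [h0] at k0
        apply hzd
        linear_combination -k0
      refine ⟨z * s 2 / s 0, ?_⟩
      rw [div_mul_div_comm, eq_div_iff (mul_ne_zero hs0 hs0)]
      linear_combination -k0 - z ^ 2 * k2 + (1 - z) * d * hz3
    · simp only [Fin.reduceFinMk, e2] at k0 k1
      have hs0 : s 0 ≠ 0 := by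
        intro h0
        rw [h0] at k0
        have h1 : (1 - z) * d * (1 + z) = 0 := by linear_combination -k0
        rcases mul_eq_zero.1 h1 with h2 | h2
        · exact hzd h2
        · have h3 : z * z = 0 := by linear_combination hz - h2
          exact hz0 (mul_self_eq_zero.1 h3)
      refine ⟨z ^ 2 * s 1 / s 0, ?_⟩
      rw [div_mul_div_comm, eq_div_iff (mul_ne_zero hs0 hs0)]
      linear_combination -k0 - z ^ 4 * k1 - d * (z ^ 2 - z ^ 3 - 1) * hz3

theorem card_two (hd : d ≠ 0) (hW : W = cv d) {z : N} (hz : z ^ 2 + z + 1 = 0) :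
    Nat.card {P : W.Point // P + P = 0} = 4 := by
  have h3 : (3 : N) ≠ 0 := by norm_num
  have hz1 : z ≠ 1 := by
    rintro rfl
    apply h3
    linear_combination hz
  have hz0 : z ≠ 0 := by
    rintro rfl
    simp at hz
  have h01 : ee z d 0 ≠ ee z d 1 := by
    intro h
    simp only [ee, Fin.val_zero, Fin.val_one] at h
    have : (z - 1) * d = 0 := by linear_combination h
    rcases mul_eq_zero.1 this with h | h
    · exact hz1 (sub_eq_zero.1 h)
    · exact hd h
  have h12 : ee z d 1 ≠ ee z d 2 := by
    intro h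
    simp only [ee, Fin.val_one, Fin.val_two] at h
    have : z * ((z - 1) * d) = 0 := by linear_combination h
    rcases mul_eq_zero.1 this with h | h
    · exact hz0 h
    · rcases mul_eq_zero.1 h with h | h
      · exact hz1 (sub_eq_zero.1 h)
      · exact hd h
  have h02 : ee z d 0 ≠ ee z d 2 := by
    intro h
    simp only [ee, Fin.val_zero, Fin.val_two] at h
    have h4 : (z - 1) * d * (z + 1) = 0 := by linear_combination h
    have hz2 : z + 1 ≠ 0 := by
      intro h5
      have : z * z = 0 := by linear_combination hz - h5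
      exact hz0 (mul_self_eq_zero.1 this)
    rcases mul_eq_zero.1 h4 with h | h
    · rcases mul_eq_zero.1 h with h | h
      · exact hz1 (sub_eq_zero.1 h)
      · exact hd h
    · exact hz2 h
  have hset : {P : W.Point | P + P = 0} =
      {0, tp hd hW (ee z d 0) (ee_cube hz 0), tp hd hW (ee z d 1) (ee_cube hz 1),
        tp hd hW (ee z d 2) (ee_cube hz 2)} := by
    ext P
    change P + P = 0 ↔ _
    rw [two_zero_iff hd hW hz]
    simp only [Set.mem_insert_iff, Set.mem_singleton_iff]
    constructor
    · rintro (h | ⟨i, h⟩)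
      · exact Or.inl h
      · fin_cases i
        · exact Or.inr (Or.inl h)
        · exact Or.inr (Or.inr (Or.inl h))
        · exact Or.inr (Or.inr (Or.inr h))
    · rintro (h | h | h | h)
      · exact Or.inl h
      · exact Or.inr ⟨0, h⟩
      · exact Or.inr ⟨1, h⟩
      · exact Or.inr ⟨2, h⟩
  have hne : ∀ i j : Fin 3, ee z d i ≠ ee z d j →
      tp hd hW (ee z d i) (ee_cube hz i) ≠ tp hd hW (ee z d j) (ee_cube hz j) := by
    intro i j hij h
    exact hij (Affine.Point.some.inj h).1
  have h0 : ∀ i : Fin 3, (0 : W.Point) ≠ tp hd hW (ee z d i) (ee_cube hz i) := by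
    intro i h
    have h' : (Affine.Point.zero : W.Point) = Affine.Point.some (ee z d i) 0 _ := h
    cases h'
  change Nat.card ({P : W.Point | P + P = 0} : Set W.Point) = 4
  rw [hset, Nat.card_coe_set_eq, Set.ncard_insert_of_notMem, Set.ncard_insert_of_notMem,
    Set.ncard_pair (hne 1 2 h12)]
  · simp only [Set.mem_insert_iff, Set.mem_singleton_iff, not_or]
    exact ⟨hne 0 1 h01, hne 0 2 h02⟩
  · simp only [Set.mem_insert_iff, Set.mem_singleton_iff, not_or]
    exact ⟨h0 0, h0 1, h0 2⟩

/-- The 2-primary part of the group of points. -/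
theorem card_prim {N : Type*} [Field N] [NumberField N] {d : N} (hd : d ≠ 0) {W : WeierstrassCurve N}
    (hW : W = cv d) {z : N} (hz : z ^ 2 + z + 1 = 0) (hm : ¬ IsSquare (-1 : N)) :
    Nat.card (AddCommGroup.primaryComponent W.toAffine.Point 2) = 4 :=
  card_primary (fun x h => no_four hd hW hz hm x h) (card_two hd hW hz)

end Pool.Agent.Lib.MP_1a91b9_ntS.C
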