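import Pool.Agent.Lib.MP_1a91b9_ntE.C.SelE0

/-!
# MP_1a91b9_nt, converse of the descent: the local images at `2`
-/

set_option autoImplicit false
set_option linter.unusedSectionVars false
set_option linter.unusedVariables false
set_option linter.unusedSimpArgs false

namespace Pool.Agent.Lib.MP_1a91b9_ntS.C

open NumberField Finset WithZero IsDedekindDomain Pool.Agent.Lib.MP_1a91b9_ntT
open Pool.Agent.Lib.MP_1a91b9_ntH (F4 wO s3 Pq qd DD dl red half qs sgz half_spec red_eq_zero Nz_coords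
  cp eq_cp cp_coords Nz Nz_mul red_w wO_quad s3_sq coe_wO om_quad)
open Pool.Agent.Lib.MP_1a91b9_ntH.C (GLoc ee Sq nu_four_le nu_four)
open Pool.Agent.Lib.MP_1a91b9_ntH.C.Sel (pv prime_two io val_two val_four2 pv_lt pv_one gp red_zero_iff
  two_mem Cl Cl.neg_one Cl.s3)
open Pool.Agent.Lib.MP_1a91b9_ntH2 (dlc tw)
open Pool.Agent.Lib.MP_1a91b9_ntE
open Pool.Agent.Lib.MP_1a91b9_ntE.C

noncomputable section

theorem tw2_one_four (y : 𝓞 K) : tw2 (1 + 4 * y) = F4.tr (red y) := by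
  obtain ⟨m, n, rfl⟩ : ∃ m n : ℤ, y = m + n * wO := ⟨(cp y).1, (cp y).2, eq_cp y⟩
  have h := Nz_coords (1 + 4 * m) (4 * n)
  have e : (((1 + 4 * m : ℤ) : 𝓞 K) + ((4 * n : ℤ) : 𝓞 K) * wO) = 1 + 4 * (m + n * wO) := by
    push_cast
    ring
  rw [e] at h
  have h2 : F4.tr (red ((m : 𝓞 K) + n * wO)) = (n : ZMod 2) := by
    change (⟨_, _⟩ : F4).b = _
    rw [cp_coords]
  rw [h2]
  unfold tw2 t8
  have h3 : (Nz (1 + 4 * ((m : 𝓞 K) + n * wO)) : ℤ) % 8 = (1 - 4 * n) % 8 := by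
    rw [h]
    have e1 : (1 + 4 * m) ^ 2 - (1 + 4 * m) * (4 * n) + (4 * n) ^ 2 =
        (1 - 4 * n) + 8 * (m + 2 * m ^ 2 - 2 * m * n + 2 * n ^ 2) := by ring
    rw [e1, Int.add_mul_emod_self_left]
  rcases Int.even_or_odd n with ⟨t, rfl⟩ | ⟨t, rfl⟩
  · have h4 : Nz (1 + 4 * ((m : 𝓞 K) + ((t + t : ℤ) : 𝓞 K) * wO)) % 8 = 1 := by omega
    rw [if_pos (Or.inl h4)]
    push_cast
    rw [← two_mul]
    have h5 : (2 : ZMod 2) = 0 := rfl
    rw [h5, zero_mul]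
  · have h4 : Nz (1 + 4 * ((m : 𝓞 K) + ((2 * t + 1 : ℤ) : 𝓞 K) * wO)) % 8 = 5 := by omega
    rw [if_neg (by omega)]
    push_cast
    have h5 : (2 : ZMod 2) = 0 := rfl
    rw [h5, zero_mul, zero_add]

/-- adding a multiple of `4` -/
theorem tw2_add_four {x : 𝓞 K} {c : F4} (hx : Cl x c) (y : 𝓞 K) :
    tw2 (x + 4 * y) = tw2 x + F4.tr (red y) := by
  have h1 : tw2 (x + 4 * y) = tw2 (x * (1 + 4 * y)) := by
    refine tw2_congr ?_
    obtain ⟨t, rfl, -⟩ := hx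
    exact ⟨-(t * y), by ring⟩
  have h2 : ¬ (2 : 𝓞 K) ∣ 1 + 4 * y := by
    intro h
    have h3 := dvd_sub h (⟨2 * y, by ring⟩ : (2 : 𝓞 K) ∣ 4 * y)
    rw [add_sub_cancel_right] at h3
    exact prime_two.not_isUnit (isUnit_of_dvd_one h3)
  rw [h1, tw2_mul' (Cl.odd hx) h2, tw2_one_four]

theorem Cf.four (y : 𝓞 K) : Cf (1 + 4 * y) 0 (F4.tr (red y)) := by
  refine ⟨⟨2 * y, by ring, ?_⟩, ?_⟩
  · have h2 : (2 : F4) = 0 := by decide
    rw [map_mul, map_ofNat, h2, zero_mul]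
  · rw [tw2_one_four]
    have h0 : F4.tr 0 = 0 := by decide
    rw [h0, zero_add]

theorem tw2_pow_w (l : ℕ) : tw2 (1 + 2 * wO ^ l) = F4.tr (F4.w ^ l) := by
  have h3 : wO ^ 3 = 1 := by linear_combination (wO - 1) * wO_quad
  have h4 : F4.w ^ 3 = 1 := by decide
  have hl : ∃ (q r : ℕ), l = 3 * q + r ∧ r < 3 := ⟨l / 3, l % 3, by omega, by omega⟩
  obtain ⟨q, r, rfl, hr⟩ := hl
  rw [pow_add, pow_mul, h3, one_pow, one_mul, pow_add, pow_mul, h4, one_pow, one_mul]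
  interval_cases r
  · rw [pow_zero, pow_zero]
    have h := Nz_coords 3 0
    have e : (((3 : ℤ) : 𝓞 K) + ((0 : ℤ) : 𝓞 K) * wO) = 1 + 2 * 1 := by
      push_cast
      ring
    rw [e] at h
    have h1 : Nz (1 + 2 * 1 : 𝓞 K) = 9 := by
      have : ((Nz (1 + 2 * 1 : 𝓞 K) : ℕ) : ℤ) = 9 := by rw [h]; norm_num
      exact_mod_cast this
    unfold tw2
    rw [h1]
    decide
  · rw [pow_one, pow_one]
    have h : tw2 s3 = 1 := tw2_s3
    have e : s3 = 1 + 2 * wO := rfl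
    rw [← e, h]
    decide
  · have h : tw2 (-1 * s3) = 1 := by
      rw [tw2_mul' (Cl.odd Cl.neg_one) (Cl.odd Cl.s3), tw2_neg_one, tw2_s3, zero_add]
    have e : (1 + 2 * wO ^ 2 : 𝓞 K) = -1 * s3 := by
      unfold s3
      linear_combination 2 * wO_quad
    rw [e, h]
    decide

/-- the class of `1 + 2 w ^ l d'` -/
theorem Cf.one_two {d' : 𝓞 K} {c : F4} (hd : Cl d' c) (l : ℕ) :
    Cf (1 + 2 * (wO ^ l * d')) (F4.w ^ l) (F4.tr (F4.w ^ l * c)) := by
  obtain ⟨y, rfl, rfl⟩ := hd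
  have h2 : (2 : F4) = 0 := by decide
  have e : (1 + 2 * (wO ^ l * (1 + 2 * y)) : 𝓞 K) = (1 + 2 * wO ^ l) + 4 * (wO ^ l * y) := by ring
  refine ⟨⟨wO ^ l * (1 + 2 * y), rfl, ?_⟩, ?_⟩
  · rw [map_mul, map_pow, red_w, map_add, map_mul, map_one, map_ofNat, h2, zero_mul, add_zero,
      mul_one]
  · rw [e, tw2_add_four (c := F4.w ^ l) ⟨wO ^ l, rfl, by rw [map_pow, red_w]⟩, tw2_pow_w, map_mul,
      map_pow, red_w, ← add_assoc]
    have h3 : ∀ x : ZMod 2, x + x = 0 := by decide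
    rw [h3, zero_add]

/-- trivial class modulo squares at `2` -/
theorem Cf.sq {x : 𝓞 K} (h : Cf x 0 0) : Sq ((pv 2 prime_two).valuation K) (x : K) := by
  obtain ⟨⟨y, rfl, hy⟩, h2⟩ := h
  rw [red_zero_iff] at hy
  obtain ⟨t, rfl⟩ := hy
  have e1 : (1 + 2 * (2 * t) : 𝓞 K) = 1 + 4 * t := by ring
  have h0 : F4.tr 0 = 0 := by decide
  rw [h0, zero_add, e1, tw2_one_four] at h2
  rw [e1]
  have h8 : ∀ s : 𝓞 K, (pv 2 prime_two).valuation K ((8 * s : 𝓞 K) : K) <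
      (pv 2 prime_two).valuation K 4 := by
    intro s
    have e8 : ((8 * s : 𝓞 K) : K) = 4 * (2 * (s : K)) := by
      show algebraMap (𝓞 K) K (8 * s) = 4 * (2 * algebraMap (𝓞 K) K s)
      rw [map_mul, map_ofNat]
      ring
    rw [e8, map_mul, map_mul, val_four2, val_two]
    have h9 : (pv 2 prime_two).valuation K (s : K) ≤ 1 := (pv 2 prime_two).valuation_le_one s
    have h10 : (exp (-1) : ℤᵐ⁰) * (pv 2 prime_two).valuation K (s : K) < 1 := by
      refine (mul_le_of_le_one_right' h9).trans_lt ?_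
      rw [← exp_zero, exp_lt_exp]
      norm_num
    calc (exp (-2) : ℤᵐ⁰) * (exp (-1) * (pv 2 prime_two).valuation K (s : K))
        < exp (-2) * 1 := by
          refine mul_lt_mul_of_pos_left h10 exp_pos
      _ = exp (-2) := mul_one _
  have h01 : red t = 0 ∨ red (t - 1) = 0 := by
    rw [map_sub, map_one]
    revert h2
    generalize red t = x
    revert x
    decide
  rcases h01 with h3 | h3
  · obtain ⟨s, rfl⟩ := red_zero_iff.1 h3
    refine Sq.one ?_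
    have e : ((1 + 4 * (2 * s) : 𝓞 K) : K) - 1 = ((8 * s : 𝓞 K) : K) := by
      show algebraMap (𝓞 K) K (1 + 4 * (2 * s)) - 1 = algebraMap (𝓞 K) K (8 * s)
      rw [map_add, map_mul, map_mul, map_mul, map_one, map_ofNat, map_ofNat, map_ofNat]
      ring
    rw [e]
    exact h8 s
  · obtain ⟨s, hs⟩ := red_zero_iff.1 h3
    have ht : t = 1 + 2 * s := by linear_combination hs
    subst ht
    have hs3 : (s3 : K) ≠ 0 := by
      intro h
      have h4 := congrArg (fun x : K => x) h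
      have h5 : (s3 : 𝓞 K) = 0 := RingOfIntegers.ext h
      have h6 := s3_sq
      rw [h5] at h6
      norm_num at h6
    refine ⟨(s3 : K), hs3, ?_⟩
    have e3 : (s3 : K) ^ 2 = -3 := by
      have h5 : algebraMap (𝓞 K) K (s3 ^ 2) = algebraMap (𝓞 K) K (-3) := by rw [s3_sq]
      rw [map_pow, map_neg, map_ofNat] at h5
      exact h5
    have e : ((1 + 4 * (1 + 2 * s) : 𝓞 K) : K) / (s3 : K) ^ 2 - 1 =
        ((8 * (1 + s) : 𝓞 K) : K) / ((-3 : 𝓞 K) : K) := by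
      rw [e3]
      show algebraMap (𝓞 K) K (1 + 4 * (1 + 2 * s)) / -3 - 1 =
        algebraMap (𝓞 K) K (8 * (1 + s)) / algebraMap (𝓞 K) K (-3)
      simp only [map_add, map_mul, map_one, map_neg, map_ofNat]
      ring
    have hv3 : (pv 2 prime_two).valuation K ((-3 : 𝓞 K) : K) = 1 := by
      refine pv_one prime_two (Cl.odd (c := 0) ⟨-2, by norm_num, ?_⟩)
      rw [map_neg, map_ofNat]
      decide
    rw [e, map_div₀, hv3, div_one]
    exact h8 _

end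

end Pool.Agent.Lib.MP_1a91b9_ntS.C
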