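import Pool.Agent.Lib.MP_1a91b9_ntS.C.Two

/-!
# MP_1a91b9_nt, converse of the descent: the local condition at `2`
-/

set_option autoImplicit false
set_option linter.unusedSectionVars false
set_option linter.unusedVariables false
set_option linter.unusedSimpArgs false

namespace Pool.Agent.Lib.MP_1a91b9_ntS.C

open NumberField Finset WithZero IsDedekindDomain Pool.Agent.Lib.MP_1a91b9_ntT
open Pool.Agent.Lib.MP_1a91b9_ntH (F4 wO s3 Pq qd DD dl red half qs sgz half_spec red_eq_zero Nz_coords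
  cp eq_cp cp_coords Nz Nz_mul red_w wO_quad s3_sq coe_wO om_quad)
open Pool.Agent.Lib.MP_1a91b9_ntH.C (GLoc ee Sq nu_four_le nu_four)
open Pool.Agent.Lib.MP_1a91b9_ntH.C.Sel (pv prime_two io val_two val_four2 pv_lt pv_one gp red_zero_iff
  two_mem Cl Cl.neg_one Cl.s3 exists_pow)
open Pool.Agent.Lib.MP_1a91b9_ntH2 (dlc tw)
open Pool.Agent.Lib.MP_1a91b9_ntE
open Pool.Agent.Lib.MP_1a91b9_ntE.C

noncomputable section

theorem om_three (j : ℕ) : (om ^ j) ^ 3 = 1 := by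
  have h : om ^ 3 = 1 := om_spec.pow_eq_one
  rw [← pow_mul, mul_comm, pow_mul, h, one_pow]

theorem om_ne (j : ℕ) : om ^ j ≠ 0 := pow_ne_zero _ (om_spec.ne_zero (by norm_num))

private theorem t2_io0 : ∀ i, io 0 i = 0 := by decide

private theorem t2_a : ∀ i j : Fin 3,
    io (F4.w ^ (j : ℕ)) i + F4.tr (F4.w ^ ((i : ℕ) + 2 * (j : ℕ))) = 0 := by decide

private theorem t2_b : ∀ i j : Fin 3, F4.of (io (F4.w * F4.w ^ (j : ℕ)) i) * 1 +
    F4.of (io (F4.w ^ (j : ℕ)) i) * F4.w + F4.w ^ ((i : ℕ) + 2 * (j : ℕ)) = 0 := by decide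

private theorem t2_c : ∀ (i j : Fin 3) (c : F4), io (F4.cj c * F4.w ^ (j : ℕ)) i +
    F4.tr (F4.w ^ ((i : ℕ) + 2 * (j : ℕ)) * c) = 0 := by decide

/-- odd twists: the triples which are `1` modulo `4` -/
theorem gloc_two_odd (D : 𝓞 K) (hD : red D = 1) (x : Fin 3 → 𝓞 K) (m : F4)
    (hx : ∀ i, Cf (x i) 0 (io m i)) :
    GLoc ((pv 2 prime_two).valuation K) om (D : K) (fun i => (x i : K)) := by
  by_cases hm : m = 0
  · left
    intro i
    have h1 := hx i
    rw [hm, t2_io0] at h1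
    exact Cf.sq h1
  · right; right
    obtain ⟨j, rfl⟩ := exists_pow m hm
    refine ⟨om ^ (j : ℕ) / 4, ?_, fun i => ?_⟩
    · refine Sq.of_mul_sq (s := 8) (by norm_num) ?_
      have h1 : Cf (1 + 4 * (2 * (8 * D ^ 3))) 0 0 := by
        have h2 := Cf.four (2 * (8 * D ^ 3))
        have h3 : (2 : F4) = 0 := by decide
        rw [map_mul, map_ofNat, h3, zero_mul] at h2
        exact h2
      have h4 := Cf.sq h1
      have e : ((om ^ (j : ℕ) / 4) ^ 3 + (D : K) ^ 3) * 8 ^ 2 =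
          ((1 + 4 * (2 * (8 * D ^ 3)) : 𝓞 K) : K) := by
        show ((om ^ (j : ℕ) / 4) ^ 3 + (algebraMap (𝓞 K) K D) ^ 3) * 8 ^ 2 =
          algebraMap (𝓞 K) K (1 + 4 * (2 * (8 * D ^ 3)))
        simp only [map_add, map_mul, map_one, map_pow, map_ofNat]
        linear_combination om_three j
      rw [e]
      exact h4
    · refine Sq.of_mul_sq (s := 2 * om ^ (j : ℕ)) (mul_ne_zero two_ne_zero (om_ne j)) ?_
      have h1 := (hx i).mul (Cf.four (wO ^ ((i : ℕ) + 2 * (j : ℕ)) * D))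
      have h5 : io (F4.w ^ (j : ℕ)) i + F4.tr (red (wO ^ ((i : ℕ) + 2 * (j : ℕ)) * D)) = 0 := by
        rw [map_mul, map_pow, red_w, hD, mul_one]
        exact t2_a i j
      rw [h5, add_zero] at h1
      have h4 := Cf.sq h1
      have e : ((x i : 𝓞 K) : K) * (om ^ (j : ℕ) / 4 - ee om (D : K) i) * (2 * om ^ (j : ℕ)) ^ 2 =
          ((x i * (1 + 4 * (wO ^ ((i : ℕ) + 2 * (j : ℕ)) * D)) : 𝓞 K) : K) := by
        unfold ee
        show (algebraMap (𝓞 K) K (x i)) * (om ^ (j : ℕ) / 4 - -(om ^ (i : ℕ) * algebraMap (𝓞 K) K D)) *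
            (2 * om ^ (j : ℕ)) ^ 2 =
          algebraMap (𝓞 K) K (x i * (1 + 4 * (wO ^ ((i : ℕ) + 2 * (j : ℕ)) * D)))
        simp only [map_add, map_mul, map_one, map_pow, map_ofNat]
        have e2 : algebraMap (𝓞 K) K wO = om := rfl
        rw [e2, pow_add, pow_mul']
        linear_combination algebraMap (𝓞 K) K (x i) * om_three j
      rw [e]
      exact h4

/-- even twists: the classes of the points whose first coordinate is a unit -/
theorem gloc_two_even {d' : 𝓞 K} {c : F4} (hd : Cl d' c) (x : Fin 3 → 𝓞 K) (z : F4)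
    (hx : ∀ i, Cf (x i) (F4.of (io (F4.w * z) i) * 1 + F4.of (io z i) * F4.w)
      (io (F4.cj c * z) i)) :
    GLoc ((pv 2 prime_two).valuation K) om ((2 * d' : 𝓞 K) : K) (fun i => (x i : K)) := by
  by_cases hz : z = 0
  · left
    intro i
    have h1 := hx i
    rw [hz, mul_zero, mul_zero] at h1
    have h3 : F4.of 0 * 1 + F4.of 0 * F4.w = 0 := by decide
    rw [t2_io0, h3] at h1
    exact Cf.sq h1
  · right; right
    obtain ⟨j, rfl⟩ := exists_pow z hz
    refine ⟨om ^ (j : ℕ), ?_, fun i => ?_⟩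
    · have h1 : Cf (1 + 4 * (2 * d' ^ 3)) 0 0 := by
        have h2 := Cf.four (2 * d' ^ 3)
        have h3 : (2 : F4) = 0 := by decide
        rw [map_mul, map_ofNat, h3, zero_mul] at h2
        exact h2
      have h4 := Cf.sq h1
      have e : (om ^ (j : ℕ)) ^ 3 + ((2 * d' : 𝓞 K) : K) ^ 3 =
          ((1 + 4 * (2 * d' ^ 3) : 𝓞 K) : K) := by
        show (om ^ (j : ℕ)) ^ 3 + (algebraMap (𝓞 K) K (2 * d')) ^ 3 =
          algebraMap (𝓞 K) K (1 + 4 * (2 * d' ^ 3))
        simp only [map_add, map_mul, map_one, map_pow, map_ofNat]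
        linear_combination om_three j
      rw [e]
      exact h4
    · refine Sq.of_mul_sq (s := om ^ (j : ℕ)) (om_ne j) ?_
      have h1 := (hx i).mul (Cf.one_two hd ((i : ℕ) + 2 * (j : ℕ)))
      have h5 : F4.of (io (F4.w * F4.w ^ (j : ℕ)) i) * 1 + F4.of (io (F4.w ^ (j : ℕ)) i) * F4.w +
          F4.w ^ ((i : ℕ) + 2 * (j : ℕ)) = 0 := t2_b i j
      have h6 : io (F4.cj c * F4.w ^ (j : ℕ)) i + F4.tr (F4.w ^ ((i : ℕ) + 2 * (j : ℕ)) * c) = 0 :=
        t2_c i j c
      rw [h5, h6] at h1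
      have h4 := Cf.sq h1
      have e : ((x i : 𝓞 K) : K) * (om ^ (j : ℕ) - ee om ((2 * d' : 𝓞 K) : K) i) *
          (om ^ (j : ℕ)) ^ 2 =
          ((x i * (1 + 2 * (wO ^ ((i : ℕ) + 2 * (j : ℕ)) * d')) : 𝓞 K) : K) := by
        unfold ee
        show (algebraMap (𝓞 K) K (x i)) * (om ^ (j : ℕ) -
            -(om ^ (i : ℕ) * algebraMap (𝓞 K) K (2 * d'))) * (om ^ (j : ℕ)) ^ 2 =
          algebraMap (𝓞 K) K (x i * (1 + 2 * (wO ^ ((i : ℕ) + 2 * (j : ℕ)) * d')))
        simp only [map_add, map_mul, map_one, map_pow, map_ofNat]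
        have e2 : algebraMap (𝓞 K) K wO = om := rfl
        rw [e2, pow_add, pow_mul']
        linear_combination algebraMap (𝓞 K) K (x i) * om_three j
      rw [e]
      exact h4

end

end Pool.Agent.Lib.MP_1a91b9_ntS.C
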